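import Pool.Agent.H.MP_8a4838_co.Path

namespace Pool.Agent.H.MP_8a4838_co

open Finset Pool.Agent.H.MP_b50c09_co Pool.Agent.H.MP_1ff796_co

variable {V : Type} [Fintype V] {E : V → V → V → Prop} {n : ℝ}

theorem lb2 {α : Type} [Fintype α] (r : α → Prop) (h : α → ℝ) (c d : ℝ) (hc : 0 ≤ c)
    (h0 : ∀ a, 0 ≤ h a) (h1 : ∀ a, r a → c ≤ h a) (h2 : d ≤ ∑ a, ind (r a)) :
    d * c ≤ ∑ a, h a := by
  refine (mul_le_mul_of_nonneg_right h2 hc).trans ?_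
  rw [sum_mul]
  refine sum_le_sum fun a _ => ?_
  by_cases ha : r a
  · rw [ind_pos ha, one_mul]; exact h1 a ha
  · rw [ind_neg ha, zero_mul]; exact h0 a

theorem lbK {k : ℕ} (φ : (Fin (k + 1) → V) → Prop) (r : V → Prop) (c d : ℝ) (hc : 0 ≤ c)
    (h2 : d ≤ ∑ a, ind (r a))
    (h1 : ∀ a, r a → c ≤ ∑ g : Fin k → V, ind (φ (Matrix.vecCons a g))) :
    d * c ≤ ∑ g, ind (φ g) := by
  rw [sum_cons]
  exact lb2 r _ c d hc (fun _ => sum_nonneg fun _ _ => ind_nonneg _) h1 h2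

theorem lbK2 {k : ℕ} (φ : (Fin (k + 2) → V) → Prop) (r : V → V → Prop) (c d : ℝ) (hc : 0 ≤ c)
    (h2 : d ≤ ∑ a, ∑ b, ind (r a b))
    (h1 : ∀ a b, r a b → c ≤ ∑ g : Fin k → V, ind (φ (Matrix.vecCons a (Matrix.vecCons b g)))) :
    d * c ≤ ∑ g, ind (φ g) := by
  rw [sum_cons, sum_congr rfl fun a _ => sum_cons _, ← Fintype.sum_prod_type']
  rw [← Fintype.sum_prod_type'] at h2
  exact lb2 (fun p : V × V => r p.1 p.2) _ c d hc (fun _ => sum_nonneg fun _ _ => ind_nonneg _)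
    (fun p => h1 p.1 p.2) h2

theorem lb0 (φ : (Fin 0 → V) → Prop) (h : φ ![]) : 1 ≤ ∑ g, ind (φ g) := by
  rw [sum_nil, ind_pos h]

structure Hy (E : V → V → V → Prop) (n : ℝ) : Prop where
  card : (Fintype.card V : ℝ) = n
  s1 : ∀ x y z, E x y z → E y x z
  s2 : ∀ x y z, E x y z → E x z y
  irr : ∀ x y z, E x y z → x ≠ y
  deg : ∀ v, 7 / 16 * n ^ 2 ≤ ∑ y, ∑ z, ind (E v y z)

noncomputable def cod (E : V → V → V → Prop) (x y : V) : ℝ := ∑ z, ind (E x y z)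

def Gd (E : V → V → V → Prop) (n : ℝ) (x y : V) : Prop := n / 200 ≤ cod E x y

theorem Hy.s3 (h : Hy E n) {x y z : V} (e : E x y z) : E z y x :=
  h.s1 _ _ _ (h.s2 _ _ _ (h.s1 _ _ _ e))

theorem Hy.nn (h : Hy E n) : 0 ≤ n := by rw [← h.card]; positivity

theorem Hy.ne (h : Hy E n) {x y z : V} (e : E x y z) : x ≠ y ∧ x ≠ z ∧ y ≠ z :=
  ⟨h.irr _ _ _ e, h.irr _ _ _ (h.s2 _ _ _ e), (h.irr _ _ _ (h.s3 e)).symm⟩

theorem Hy.one (h : Hy E n) (c : ℝ) : ∑ _v : V, c = n * c := by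
  rw [sum_const, card_univ, nsmul_eq_mul, h.card]

theorem Hy.le (h : Hy E n) (r : V → Prop) : ∑ v, ind (r v) ≤ n := by
  have := sum_le_sum (s := univ) fun v _ => ind_le_one (r v)
  rwa [h.one, mul_one] at this

theorem Hy.cod_comm (h : Hy E n) (x y : V) : cod E x y = cod E y x :=
  sum_congr rfl fun _ _ => ind_congr ⟨h.s1 _ _ _, h.s1 _ _ _⟩

theorem Hy.gd_comm (h : Hy E n) {x y : V} (g : Gd E n x y) : Gd E n y x := by
  unfold Gd at *; rwa [h.cod_comm]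

theorem ind_not (p : Prop) : ind (¬p) = 1 - ind p := by
  by_cases h : p
  · rw [ind_pos h, ind_neg (not_not.2 h), sub_self]
  · rw [ind_neg h, ind_pos h, sub_zero]

theorem Hy.poor (h : Hy E n) (v : V) :
    ∑ y, ∑ z, ind (¬Gd E n v y) * ind (E v y z) ≤ n ^ 2 / 200 := by
  have : ∑ y, ∑ z, ind (¬Gd E n v y) * ind (E v y z) ≤ ∑ _y : V, n / 200 := by
    refine sum_le_sum fun y _ => ?_
    rw [← mul_sum]
    by_cases hy : Gd E n v y
    · rw [ind_neg (not_not.2 hy), zero_mul]; linarith [h.nn]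
    · rw [ind_pos hy, one_mul]; exact (not_le.1 hy).le
  rw [h.one] at this
  linarith

theorem Hy.poor' (h : Hy E n) (v : V) :
    ∑ y, ∑ z, ind (¬Gd E n v z) * ind (E v y z) ≤ n ^ 2 / 200 := by
  rw [sum_comm]
  refine le_trans (le_of_eq ?_) (h.poor v)
  exact sum_congr rfl fun _ _ => sum_congr rfl fun _ _ => by
    rw [ind_congr ⟨h.s2 _ _ _, h.s2 _ _ _⟩]

theorem Hy.big (h : Hy E n) (v : V) : 65 / 100 * n ≤ ∑ w, ind (Gd E n v w) := by
  have h1 : ∑ y, ∑ z, ind (E v y z) ≤ ∑ y, ∑ z, (ind (Gd E n v y) * ind (Gd E n v z) +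
      ind (¬Gd E n v y) * ind (E v y z) + ind (¬Gd E n v z) * ind (E v y z)) := by
    refine sum_le_sum fun y _ => sum_le_sum fun z _ => ?_
    have := ind_nonneg (E v y z)
    have := ind_le_one (E v y z)
    rw [ind_not, ind_not]
    by_cases a : Gd E n v y <;> by_cases b : Gd E n v z <;>
      simp only [ind_pos, ind_neg, a, b, not_false_iff] <;> linarith
  simp only [sum_add_distrib] at h1
  rw [← sum_mul_sum] at h1
  have h2 := h.poor v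
  have h3 := h.poor' v
  have h4 := h.deg v
  have h5 : 0 ≤ ∑ w, ind (Gd E n v w) := sum_nonneg fun _ _ => ind_nonneg _
  have h6 := h.nn
  by_contra h7
  nlinarith

theorem Hy.inter (h : Hy E n) (p q : V → Prop) (a b : ℝ) (hp : a ≤ ∑ v, ind (p v))
    (hq : b ≤ ∑ v, ind (q v)) : a + b - n ≤ ∑ v, ind (p v ∧ q v) := by
  have h1 : ∑ a, (ind (p a) + ind (q a) - 1) ≤ ∑ a, ind (p a ∧ q a) := by
    refine sum_le_sum fun a _ => ?_
    rw [ind_and]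
    nlinarith [mul_nonneg (sub_nonneg.2 (ind_le_one (p a))) (sub_nonneg.2 (ind_le_one (q a)))]
  rw [sum_sub_distrib, sum_add_distrib, h.one] at h1
  linarith

/-- Connector from `t.1` to `t.2`. -/
def Cn (E : V → V → V → Prop) (t : V × V) (g : Fin 3 → V) : Prop :=
  E t.1 (g 1) (g 0) ∧ E (g 0) (g 2) t.2

theorem Hy.conn (h : Hy E n) (t : V × V) : 7 / 10 ^ 6 * n ^ 3 ≤ ∑ g, ind (Cn E t g) := by
  have hn := h.nn
  refine le_trans ?_ (lbK _ (fun d => Gd E n t.1 d ∧ Gd E n t.2 d) (n / 200 * (n / 200 * 1)) _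
    (by positivity) (h.inter _ _ _ _ (h.big t.1) (h.big t.2)) fun d hd =>
    lbK _ (fun m => E t.1 d m) _ _ (by positivity) hd.1 fun m hm =>
    lbK _ (fun m => E t.2 d m) _ _ (by positivity) hd.2 fun m' hm' =>
    lb0 _ ⟨h.s2 _ _ _ hm, h.s2 _ _ _ (h.s1 _ _ _ hm')⟩)
  nlinarith [pow_nonneg hn 3]

theorem Hy.half (h : Hy E n) (x y : V) : 7 / 16 * n ^ 2 ≤ n ^ 2 / 100 +
    (∑ w, ind (Gd E n x w ∧ ¬Gd E n y w)) * (∑ w, ind (Gd E n x w ∧ ¬Gd E n y w) +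
      ∑ w, ind (Gd E n x w ∧ Gd E n y w)) + (∑ w, ind (Gd E n x w ∧ Gd E n y w)) * (36 / 100 * n) +
      (∑ w, ind (36 / 100 * n ≤ cod E x w ∧ Gd E n y w)) * n := by
  have h1 : ∑ w, ∑ z, ind (E x w z) ≤ ∑ w, ∑ z, (ind (¬Gd E n x w) * ind (E x w z) +
      ind (¬Gd E n x z) * ind (E x w z) + ind (Gd E n x w ∧ ¬Gd E n y w) *
        (ind (Gd E n x z ∧ ¬Gd E n y z) + ind (Gd E n x z ∧ Gd E n y z)) +
      ind (Gd E n x w ∧ Gd E n y w) * ind (E x w z)) := by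
    refine sum_le_sum fun w _ => sum_le_sum fun z _ => ?_
    have := ind_nonneg (E x w z)
    have := ind_le_one (E x w z)
    simp only [ind_and, ind_not]
    by_cases a : Gd E n x w <;> by_cases b : Gd E n x z <;> by_cases c : Gd E n y w <;>
      simp only [ind_pos, ind_neg, a, b, c, not_false_iff] <;> linarith
  have h2 : ∑ w, ∑ z, ind (Gd E n x w ∧ Gd E n y w) * ind (E x w z) ≤
      ∑ w, (ind (Gd E n x w ∧ Gd E n y w) * (36 / 100 * n) +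
        ind (36 / 100 * n ≤ cod E x w ∧ Gd E n y w) * n) := by
    refine sum_le_sum fun w _ => ?_
    rw [← mul_sum]
    have a1 : cod E x w ≤ n := h.le _
    have a2 := mul_nonneg (ind_nonneg (36 / 100 * n ≤ cod E x w ∧ Gd E n y w)) h.nn
    change _ * cod E x w ≤ _
    by_cases a : Gd E n x w ∧ Gd E n y w
    · rw [ind_pos a]
      by_cases b : 36 / 100 * n ≤ cod E x w
      · rw [ind_pos ⟨b, a.2⟩]; linarith [h.nn]
      · linarith
    · rw [ind_neg a]; linarith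
  simp only [sum_add_distrib] at h1 h2
  rw [← sum_mul_sum, sum_add_distrib] at h1
  rw [← sum_mul, ← sum_mul] at h2
  linarith [h.poor x, h.poor' x, h.deg x]

theorem half_ar (n p i A : ℝ) (hn : 0 ≤ n) (hp : 0 ≤ p) (h1 : 2 * p + i ≤ n) (hi : 0 ≤ i)
    (h : 7 / 16 * n ^ 2 ≤ n ^ 2 / 100 + p * (p + i) + i * (36 / 100 * n) + A * n) (hA0 : 0 ≤ A) :
    n / 200 ≤ A := by
  by_contra hA
  have a1 : A * n ≤ n / 200 * n := mul_le_mul_of_nonneg_right (not_le.1 hA).le hn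
  have a2 : p * (p + i) ≤ (n - i) / 2 * ((n - i) / 2 + i) :=
    mul_le_mul (by linarith) (by linarith) (by linarith) (by linarith)
  have a3 : 0 < n := by linarith [not_le.1 hA]
  nlinarith [sq_nonneg (i - 72 / 100 * n), mul_pos a3 a3]

theorem Hy.mid (h : Hy E n) (x y : V) :
    n / 200 ≤ ∑ w, ind (36 / 100 * n ≤ cod E x w ∧ Gd E n y w) ∨
    n / 200 ≤ ∑ w, ind (36 / 100 * n ≤ cod E y w ∧ Gd E n x w) := by
  have h1 : ∑ w, (ind (Gd E n x w ∧ ¬Gd E n y w) + ind (Gd E n y w ∧ ¬Gd E n x w) +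
      ind (Gd E n x w ∧ Gd E n y w)) ≤ ∑ _w : V, (1 : ℝ) := by
    refine sum_le_sum fun w _ => ?_
    simp only [ind_and, ind_not]
    nlinarith [mul_nonneg (sub_nonneg.2 (ind_le_one (Gd E n x w)))
      (sub_nonneg.2 (ind_le_one (Gd E n y w)))]
  rw [sum_add_distrib, sum_add_distrib, h.one] at h1
  have h2 : ∑ w, ind (Gd E n y w ∧ Gd E n x w) = ∑ w, ind (Gd E n x w ∧ Gd E n y w) :=
    sum_congr rfl fun _ _ => ind_congr and_comm
  have h0 : ∀ r : V → Prop, 0 ≤ ∑ w, ind (r w) := fun _ => sum_nonneg fun _ _ => ind_nonneg _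
  rcases le_total (∑ w, ind (Gd E n x w ∧ ¬Gd E n y w)) (∑ w, ind (Gd E n y w ∧ ¬Gd E n x w))
    with h3 | h3
  · exact Or.inl (half_ar n _ _ _ h.nn (h0 _) (by linarith) (h0 _) (h.half x y) (h0 _))
  · exact Or.inr (half_ar n _ _ _ h.nn (h0 _) (by linarith) (h0 _) (h.half y x) (h0 _))

/-- Skeleton of an absorber. -/
def Sk (E : V → V → V → Prop) (g : Fin 7 → V) : Prop :=
  E (g 6) (g 5) (g 3) ∧ E (g 3) (g 0) (g 2) ∧ E (g 2) (g 1) (g 4)

def Ab1 (E : V → V → V → Prop) (x y : V) (g : Fin 7 → V) : Prop :=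
  E (g 5) x (g 0) ∧ E (g 0) y (g 1)

def Ab (E : V → V → V → Prop) (t : V × V) (g : Fin 7 → V) : Prop :=
  Ab1 E t.1 t.2 g ∨ Ab1 E t.2 t.1 g

theorem Hy.pairs (h : Hy E n) (v u : V) :
    87 / 1000 * n ^ 2 ≤ ∑ a, ∑ b, ind (E v a b ∧ Gd E n u a) := by
  have h1 : ∑ a, ∑ b, ind (E v a b) ≤
      ∑ a, ∑ b, (ind (E v a b ∧ Gd E n u a) + (1 - ind (Gd E n u a))) := by
    refine sum_le_sum fun a _ => sum_le_sum fun b _ => ?_
    have := ind_split (E v a b) (¬Gd E n u a)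
    rwa [not_not, ind_not] at this
  simp only [sum_add_distrib, sum_sub_distrib, h.one, ← mul_sum] at h1
  have := mul_le_mul_of_nonneg_left (h.big u) h.nn
  nlinarith [h.deg v, sq_nonneg n]

theorem Hy.abs1 (h : Hy E n) (x y : V)
    (h1 : n / 200 ≤ ∑ w, ind (36 / 100 * n ≤ cod E x w ∧ Gd E n y w)) :
    5 / 10 ^ 13 * n ^ 7 ≤ ∑ g, ind (Sk E g ∧ Ab1 E x y g) := by
  have hn := h.nn
  refine le_trans ?_ (lbK _ _ (n / 200 * (87 / 1000 * n ^ 2 * (n / 200 *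
      ((36 / 100 * n + 65 / 100 * n - n) * (n / 200 * 1))))) _
    (by rw [show 36 / 100 * n + 65 / 100 * n - n = n / 100 by ring]; positivity) h1 fun v4 h4 =>
    lbK _ (fun m => E y v4 m) _ _
      (by rw [show 36 / 100 * n + 65 / 100 * n - n = n / 100 by ring]; positivity) h4.2
      fun v6 h6 => lbK2 _ _ _ _
      (by rw [show 36 / 100 * n + 65 / 100 * n - n = n / 100 by ring]; positivity)
      (h.pairs v4 v6) fun v5 v3 h5 => lbK _ (fun m => E v6 v5 m) _ _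
      (by rw [show 36 / 100 * n + 65 / 100 * n - n = n / 100 by ring]; positivity) h5.2
      fun v7 h7 => lbK _ (fun m => E x v4 m ∧ Gd E n v3 m) _ _ (by positivity)
      (h.inter _ _ _ _ h4.1 (h.big v3)) fun v2 h2 =>
      lbK _ (fun m => E v3 v2 m) _ _ (by positivity) h2.2 fun v1 h1 =>
      lb0 _ ⟨⟨h.s3 h1, h.s1 _ _ _ (h.s2 _ _ _ h5.1), h.s1 _ _ _ h7⟩,
        h.s2 _ _ _ (h.s3 h2.1), h.s1 _ _ _ h6⟩)
  nlinarith [pow_nonneg hn 7]

theorem Hy.abs (h : Hy E n) (t : V × V) :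
    5 / 10 ^ 13 * n ^ 7 ≤ ∑ g, ind (Sk E g ∧ Ab E t g) := by
  rcases h.mid t.1 t.2 with h1 | h1
  · exact (h.abs1 _ _ h1).trans (sum_le_sum fun g _ => ind_mono fun a => ⟨a.1, Or.inl a.2⟩)
  · exact (h.abs1 _ _ h1).trans (sum_le_sum fun g _ => ind_mono fun a => ⟨a.1, Or.inr a.2⟩)

end Pool.Agent.H.MP_8a4838_co
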