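import Pool.Agent.H.MP_8a4838_co.Cnt
import Pool.Agent.H.MP_1ff796_co.Almost4

namespace Pool.Agent.H.MP_8a4838_co

open Finset Pool.Agent.H.MP_b50c09_co Pool.Agent.H.MP_1ff796_co

theorem optB {ι : Type} [Fintype ι] (S : Q4 ι → Prop) (M B : ℝ) (hM0 : 0 < M) (hB : 0 ≤ B) :
    ∃ (f : Q4 ι → ℝ) (w : ι → ℝ), (∀ T, 0 ≤ f T) ∧ (∀ T, f T ≤ B) ∧ (∀ T, f T ≠ 0 → S T) ∧
      (∀ v, -1 ≤ w v) ∧ (∀ T, S T → f T < B → 0 ≤ s4 w T) ∧ (∀ T, f T ≠ 0 → s4 w T ≤ 0) ∧
      (∀ v, ld f v ≤ 1 → w v = -1) ∧ ∀ v, ld f v ≤ 1 + 4 / M := by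
  classical
  set K : Set (Q4 ι → ℝ) := Set.pi Set.univ fun T => Set.Icc 0 (if S T then B else 0) with hK
  have hKc : IsCompact K := isCompact_univ_pi fun T => isCompact_Icc
  have hKn : K.Nonempty := ⟨fun _ => 0, fun T _ => ⟨le_rfl, by split_ifs <;> linarith⟩⟩
  set Φ : (Q4 ι → ℝ) → ℝ := fun f => ∑ v, (-ld f v + M / 2 * (max (ld f v - 1) 0) ^ 2) with hΦ
  have hcont : Continuous Φ := by
    simp only [hΦ, ld]
    fun_prop
  obtain ⟨f, hf, hmin⟩ := hKc.exists_isMinOn hKn hcont.continuousOn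
  have hf0 : ∀ T, 0 ≤ f T := fun T => (hf T (Set.mem_univ _)).1
  have hf1 : ∀ T, f T ≤ if S T then B else 0 := fun T => (hf T (Set.mem_univ _)).2
  have hfs : ∀ T, f T ≠ 0 → S T := by
    intro T h
    by_contra h2
    have := hf1 T
    rw [if_neg h2] at this
    exact h (le_antisymm this (hf0 T))
  set w : ι → ℝ := fun v => -1 + M * max (ld f v - 1) 0 with hw
  have hw1 : ∀ v, -1 ≤ w v := fun v =>
    le_add_of_nonneg_right (mul_nonneg hM0.le (le_max_right _ _))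
  have key : ∀ T ε, S T → 0 ≤ f T + ε → f T + ε ≤ B → 0 ≤ ε * s4 w T + 8 * M * ε ^ 2 := by
    intro T ε hS h1 h2
    have hmem : Function.update f T (f T + ε) ∈ K := by
      intro T' _
      by_cases h : T' = T
      · rw [h, Function.update_self]; beta_reduce; rw [if_pos hS]; exact ⟨h1, h2⟩
      · rw [Function.update_of_ne h]; exact hf T' (Set.mem_univ _)
    have hld : ∀ v, ld (Function.update f T (f T + ε)) v =
        ld f v + ε * s4 (fun z => ind (z = v)) T := by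
      intro v
      unfold ld
      rw [← add_sum_erase _ _ (mem_univ T), ← add_sum_erase univ _ (mem_univ T),
        Function.update_self,
        sum_congr rfl fun T' hT' => by rw [Function.update_of_ne (mem_erase.1 hT').1]]
      ring
    have h3 : Φ f ≤ Φ (Function.update f T (f T + ε)) := hmin hmem
    have h4 : Φ (Function.update f T (f T + ε)) ≤ ∑ v, ((-ld f v + M / 2 * (max (ld f v - 1) 0) ^ 2)
        + ε * (w v * s4 (fun z => ind (z = v)) T) +
          2 * M * ε ^ 2 * (1 * s4 (fun z => ind (z = v)) T)) := by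
      refine sum_le_sum fun v _ => ?_
      rw [hld]
      have a1 := mul_le_mul_of_nonneg_left
        (psi_ineq (ld f v) (ε * s4 (fun z => ind (z = v)) T)) (show 0 ≤ M / 2 by positivity)
      have a2 := mult_nonneg v T
      have a3 := mult_le v T
      have a4 : 0 ≤ M * ε ^ 2 * (s4 (fun z => ind (z = v)) T * (4 - s4 (fun z => ind (z = v)) T)) :=
        mul_nonneg (by positivity) (mul_nonneg a2 (by linarith))
      simp only [hw]
      nlinarith
    rw [sum_add_distrib, sum_add_distrib, ← mul_sum, ← mul_sum, sum_s4, sum_s4] at h4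
    have h5 : s4 (fun _ : ι => (1 : ℝ)) T = 4 := by unfold s4; norm_num
    rw [h5] at h4
    simp only [hΦ] at h3 h4
    linarith
  have hle : ∀ T, f T ≠ 0 → s4 w T ≤ 0 := by
    intro T h
    have hpos : 0 < f T := lt_of_le_of_ne (hf0 T) (Ne.symm h)
    have h1 := hf1 T
    rw [if_pos (hfs T h)] at h1
    have := nonneg_of_small (-s4 w T) (8 * M) (f T) hpos (by positivity) fun ε h2 h3 => by
      have := key T (-ε) (hfs T h) (by linarith) (by linarith)
      linarith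
    linarith
  have hge : ∀ T, S T → f T < B → 0 ≤ s4 w T := fun T hS h =>
    nonneg_of_small _ (8 * M) (B - f T) (by linarith) (by positivity) fun ε h2 h3 =>
      key T ε hS (by linarith [hf0 T]) (by linarith)
  refine ⟨f, w, hf0, fun T => (hf1 T).trans (by split_ifs <;> linarith), hfs, hw1, hge, hle,
    fun v hv => ?_, fun v => ?_⟩
  · simp only [hw]
    rw [max_eq_right (by linarith), mul_zero, add_zero]
  · by_cases h : ld f v = 0
    · rw [h]; positivity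
    obtain ⟨T, hT, hv⟩ := exists_of_ld_ne f v h
    have a1 := hle T hT
    have a2 : w v ≤ 3 := by
      have b1 := hw1 T.1
      have b2 := hw1 T.2.1
      have b3 := hw1 T.2.2.1
      have b4 := hw1 T.2.2.2
      unfold s4 at a1
      rcases hv with h | h | h | h <;> rw [← h] <;> linarith
    have a3 := mul_le_mul_of_nonneg_left (le_max_left (ld f v - 1) 0) hM0.le
    simp only [hw] at a2
    have a4 : ld f v - 1 ≤ 4 / M := by rw [le_div_iff₀ hM0]; linarith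
    linarith

variable {V : Type}

theorem eg_ar (p a c : ℝ) (ha : 0 ≤ a) (hac : a ≤ c) (h : a + c < p / 2) :
    c * c + a * (p - c) + (p - c) * a ≤ 7 / 16 * p ^ 2 := by
  have hc : 0 ≤ p - c := by linarith
  rcases le_total c (p / 4) with h1 | h1
  · nlinarith [mul_le_mul_of_nonneg_right hac hc]
  · nlinarith [mul_le_mul_of_nonneg_right (show a ≤ p / 2 - c by linarith) hc]

theorem thr (P : Finset V) (X : V → ℝ) (θ : ℝ) (hθ : θ ≤ 1 / 2)
    (h : 7 / 16 * (P.card : ℝ) ^ 2 < ∑ y ∈ P, ∑ z ∈ P, ind (1 ≤ X y + X z)) :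
    (P.card : ℝ) / 2 ≤ ∑ v ∈ P, (ind (θ ≤ X v) + ind (1 - θ < X v)) := by
  have h1 : ∑ y ∈ P, ∑ z ∈ P, ind (1 ≤ X y + X z) ≤ ∑ y ∈ P, ∑ z ∈ P,
      (ind (θ ≤ X y) * ind (θ ≤ X z) + ind (1 - θ < X y) * (1 - ind (θ ≤ X z)) +
        (1 - ind (θ ≤ X y)) * ind (1 - θ < X z)) := by
    refine sum_le_sum fun y _ => sum_le_sum fun z _ => ?_
    have a1 := ind_nonneg (1 - θ < X y)
    have a2 := ind_nonneg (1 - θ < X z)
    have a3 := ind_le_one (1 ≤ X y + X z)
    by_cases e : 1 ≤ X y + X z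
    · by_cases a : θ ≤ X y <;> by_cases b : θ ≤ X z
      · rw [ind_pos a, ind_pos b]; linarith
      · rw [ind_pos a, ind_neg b, ind_pos (show 1 - θ < X y by linarith)]; linarith
      · rw [ind_neg a, ind_pos b, ind_pos (show 1 - θ < X z by linarith)]; linarith
      · exfalso; linarith
    · rw [ind_neg e]
      have b1 := sub_nonneg.2 (ind_le_one (θ ≤ X y))
      have b2 := sub_nonneg.2 (ind_le_one (θ ≤ X z))
      have b3 := ind_nonneg (θ ≤ X y)
      have b4 := ind_nonneg (θ ≤ X z)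
      positivity
  simp only [sum_add_distrib] at h1
  rw [← sum_mul_sum, ← sum_mul_sum, ← sum_mul_sum, sum_sub_distrib, sum_const, nsmul_eq_mul,
    mul_one] at h1
  rw [sum_add_distrib]
  by_contra h2
  have := eg_ar P.card (∑ v ∈ P, ind (1 - θ < X v)) (∑ v ∈ P, ind (θ ≤ X v))
    (sum_nonneg fun _ _ => ind_nonneg _) (sum_le_sum fun v _ => ind_mono fun h => by linarith)
    (by linarith)
  linarith

theorem cnt_a (t : ℝ) (ht : 0 ≤ t) (N : ℕ) :
    ∑ j ∈ range N, ind ((j : ℝ) + 1 ≤ t) ≤ t ∧ ∑ j ∈ range N, ind ((j : ℝ) + 1 ≤ t) ≤ N := by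
  induction N with
  | zero => simp [ht]
  | succ N ih =>
    rw [sum_range_succ]
    push_cast
    by_cases h : (N : ℝ) + 1 ≤ t
    · rw [ind_pos h]; constructor <;> linarith [ih.2]
    · rw [ind_neg h]; constructor <;> linarith [ih.1, ih.2]

theorem cnt_b (u : ℝ) (N : ℕ) : ∑ j ∈ range N, ind (u < (j : ℝ) + 1) ≤ max 0 (N + 1 - u) := by
  induction N with
  | zero => simp
  | succ N ih =>
    rw [sum_range_succ]
    push_cast
    by_cases h : u < (N : ℝ) + 1
    · rw [ind_pos h]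
      rw [max_eq_right (by linarith)] at ih ⊢
      linarith
    · rw [ind_neg h, add_zero]
      exact ih.trans (max_le_max le_rfl (by linarith))

theorem eg (P : Finset V) (X : V → ℝ) (hX : ∀ v, 0 ≤ X v)
    (h : 7 / 16 * (P.card : ℝ) ^ 2 < ∑ y ∈ P, ∑ z ∈ P, ind (1 ≤ X y + X z)) :
    (P.card : ℝ) ≤ 4 * ∑ v ∈ P, X v := by
  by_contra h1
  obtain ⟨N, hN⟩ := exists_nat_gt (P.card / (P.card / 2 - 2 * ∑ v ∈ P, X v))
  have h2 : 0 < P.card / 2 - 2 * ∑ v ∈ P, X v := by linarith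
  have hN0 : (0 : ℝ) < N := lt_of_le_of_lt (by positivity) hN
  rw [div_lt_iff₀ h2] at hN
  have h3 := sum_le_sum (s := range N) fun j hj => thr P X ((j + 1) / (2 * N)) (by
    have : (j : ℝ) + 1 ≤ N := by exact_mod_cast mem_range.1 hj
    rw [div_le_iff₀ (by positivity)]; linarith) h
  rw [sum_const, card_range, nsmul_eq_mul, sum_comm] at h3
  have h4 : ∀ v ∈ P, ∑ j ∈ range N, (ind (((j : ℝ) + 1) / (2 * N) ≤ X v) +
      ind (1 - ((j : ℝ) + 1) / (2 * N) < X v)) ≤ 2 * N * X v + 1 := by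
    intro v _
    have a1 := cnt_a (2 * N * X v) (mul_nonneg (by positivity) (hX v)) N
    have a2 := cnt_b (2 * N - 2 * N * X v) N
    have e1 : ∀ j : ℕ, ind (((j : ℝ) + 1) / (2 * N) ≤ X v) = ind ((j : ℝ) + 1 ≤ 2 * N * X v) :=
      fun j => ind_congr (by rw [div_le_iff₀ (by positivity), mul_comm])
    have e2 : ∀ j : ℕ, ind (1 - ((j : ℝ) + 1) / (2 * N) < X v) =
        ind (2 * N - 2 * N * X v < (j : ℝ) + 1) := fun j => ind_congr
      (by rw [sub_lt_comm, lt_div_iff₀ (by positivity)]; constructor <;> intro <;> linarith)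
    simp only [e1, e2, sum_add_distrib]
    rcases le_total 0 (N + 1 - (2 * N - 2 * N * X v)) with a | a
    · rw [max_eq_right a] at a2; linarith [a1.2]
    · rw [max_eq_left a] at a2; linarith [a1.1]
  have h5 := sum_le_sum h4
  rw [sum_add_distrib, ← mul_sum, sum_const, nsmul_eq_mul] at h5
  linarith

variable [Fintype V] {E : V → V → V → Prop} {n : ℝ}

theorem sum_P [DecidableEq V] (P : Finset V) (h : V → ℝ) :
    ∑ u, ind (u ∈ P) * h u = ∑ u ∈ P, h u := by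
  rw [← sum_subset (subset_univ P) fun u _ hu => by rw [ind_neg hu, zero_mul]]
  exact sum_congr rfl fun u hu => by rw [ind_pos hu, one_mul]

theorem dual [DecidableEq V] (h : Hy E n) (hn : 0 < n) (a κ : ℝ) (ha : 0 < a)
    (hd : ∀ v, (7 / 16 + a) * n ^ 2 ≤ ∑ y, ∑ z, ind (E v y z)) (P : Finset V)
    (hP : n - P.card ≤ a / 8 * n) (w : V → ℝ) (hw : ∀ v, -1 ≤ w v) (Bd : V → V → V → Prop)
    (hB : ∑ m, ∑ u, ∑ v, ind (Bd m u v) ≤ κ * n ^ 3)
    (h1 : ∀ m ∈ P, ∀ u ∈ P, ∀ v ∈ P, E m u v → ¬Bd m u v → 0 ≤ 2 * w m + w u + w v) :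
    -(2 * κ / a * n) ≤ ∑ v ∈ P, w v := by
  classical
  obtain ⟨gd, hgd⟩ : ∃ gd : V → Prop, ∀ m, gd m ↔ ∑ u, ∑ v, ind (Bd m u v) ≤ a / 2 * n ^ 2 :=
    ⟨_, fun _ => Iff.rfl⟩
  have h2 : ∑ m ∈ P, ind (¬gd m) ≤ 2 * κ / a * n := by
    have a1 := lb2 (fun m => ¬gd m) (fun m => ∑ u, ∑ v, ind (Bd m u v)) (a / 2 * n ^ 2) _
      (by positivity) (fun _ => sum_nonneg fun _ _ => sum_nonneg fun _ _ => ind_nonneg _)
      (fun m hm => (not_le.1 (mt (hgd m).2 hm)).le) le_rfl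
    refine (sum_le_sum_of_subset_of_nonneg (subset_univ P) fun _ _ _ => ind_nonneg _).trans ?_
    rw [div_mul_eq_mul_div, le_div_iff₀ ha]
    refine le_of_mul_le_mul_right ?_ (show 0 < n ^ 2 by positivity)
    linarith
  by_cases h3 : ∃ v ∈ P, gd v ∧ w v < 0
  swap
  · push Not at h3
    have : ∑ v ∈ P, -ind (¬gd v) ≤ ∑ v ∈ P, w v := sum_le_sum fun v hv => by
      by_cases e : gd v
      · rw [ind_neg (not_not.2 e), neg_zero]; exact h3 v hv e
      · rw [ind_pos e]; exact hw v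
    rw [sum_neg_distrib] at this
    linarith
  obtain ⟨v1, b1, b2, b3⟩ := h3
  obtain ⟨m, hm, hmin⟩ := exists_min_image (P.filter gd) w ⟨v1, mem_filter.2 ⟨b1, b2⟩⟩
  have hm0 : 0 < -4 * w m := by linarith [hmin v1 (mem_filter.2 ⟨b1, b2⟩)]
  rw [mem_filter] at hm
  obtain ⟨X, hX⟩ : ∃ X : V → ℝ, ∀ v, X v = max 0 (w v - w m) / (-4 * w m) := ⟨_, fun _ => rfl⟩
  have h4 : ∑ u, ∑ v, ind (E m u v) ≤ ∑ u, ∑ v, (ind (u ∈ P) * (ind (v ∈ P) * ind (1 ≤ X u + X v)) +
      ind (Bd m u v) + (1 - ind (u ∈ P) * 1) + (1 - ind (v ∈ P) * 1)) := by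
    refine sum_le_sum fun u _ => sum_le_sum fun v _ => ?_
    have a1 := ind_nonneg (Bd m u v)
    have a2 := ind_le_one (E m u v)
    have a3 := ind_nonneg (1 ≤ X u + X v)
    by_cases eu : u ∈ P <;> by_cases ev : v ∈ P <;>
      simp only [ind_pos, ind_neg, eu, ev, not_false_iff] <;> try linarith
    by_cases e1 : E m u v
    · by_cases e2 : Bd m u v
      · rw [ind_pos e2]; linarith
      · rw [ind_pos (p := 1 ≤ X u + X v)]
        · linarith
        rw [hX, hX, ← add_div, le_div_iff₀ hm0]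
        linarith [h1 m hm.1 u eu v ev e1 e2, le_max_right 0 (w u - w m), le_max_right 0 (w v - w m)]
    · rw [ind_neg e1]; linarith
  simp only [sum_add_distrib, sum_sub_distrib, ← mul_sum, sum_P, h.one, sum_const,
    nsmul_eq_mul, card_univ, h.card] at h4
  have hPn : (P.card : ℝ) ≤ n := by rw [← h.card]; exact_mod_cast card_le_univ P
  have h5 := eg P X (fun v => by rw [hX]; exact div_nonneg (le_max_left _ _) hm0.le) (by
    have a1 := (hgd m).1 hm.2
    have a2 := hd m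
    have a3 := mul_le_mul_of_nonneg_left hP hn.le
    have a4 : (P.card : ℝ) ^ 2 ≤ n ^ 2 := by gcongr
    have a5 : 0 < a * n ^ 2 := by positivity
    nlinarith)
  simp only [hX] at h5
  rw [← sum_div, ← mul_div_assoc, le_div_iff₀ hm0] at h5
  have h6 : ∑ v ∈ P, max 0 (w v - w m) ≤ ∑ v ∈ P, (w v - w m + ind (¬gd v)) := by
    refine sum_le_sum fun v hv => ?_
    by_cases e : gd v
    · rw [ind_neg (not_not.2 e), max_eq_right (sub_nonneg.2 (hmin v (mem_filter.2 ⟨hv, e⟩))),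
        add_zero]
    · rw [ind_pos e]; exact max_le (by linarith [hw v]) (by linarith)
  rw [sum_add_distrib, sum_sub_distrib, sum_const, nsmul_eq_mul] at h6
  linarith

/-- Two edges through a common pair. -/
def ER (R : V → V → V → Prop) : Bool → Q4 V → Prop :=
  fun _ T => R T.1 T.2.2.1 T.2.1 ∧ R T.1 T.2.2.2 T.2.1

theorem tile (a η : ℝ) (ha : 0 < a) (ha1 : a ≤ 1) (hη : 0 < η) (hη1 : η ≤ 1) (s : ℕ) (hs : 0 < s) :
    ∃ n0 : ℝ, ∀ {V : Type} [Fintype V] [DecidableEq V] (E R : V → V → V → Prop) (P : Finset V)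
      (n : ℝ), Hy E n → 0 < n → n0 ≤ n → (∀ v, (7 / 16 + a) * n ^ 2 ≤ ∑ y, ∑ z, ind (E v y z)) →
      (∀ x y z, R x y z → R y x z) →
      ∑ m, ∑ u, ∑ v, ind (E m u v ∧ ¬R m u v) ≤ a * η / 24 * n ^ 3 → n - P.card ≤ a / 8 * n →
      ∃ X ⊆ P, Tl (ER R) s X ∧ (P.card : ℝ) - X.card ≤ 58 * η * n := by
  obtain ⟨τ, hτ, hτe⟩ : ∃ τ : ℝ, 0 < τ ∧ τ = a * η / 24 := ⟨_, by positivity, rfl⟩
  have hτ1 : τ ≤ 1 := by rw [hτe]; nlinarith
  obtain ⟨n0, h0⟩ := almost4 (1 / τ ^ 2) η (by rw [le_div_iff₀ (by positivity)]; nlinarith)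
    hη hη1 s hs
  refine ⟨n0, ?_⟩
  intro V _ _ E R P n h hn hn0 hd hR hε hP
  have hPn : (P.card : ℝ) ≤ n := by rw [← h.card]; exact_mod_cast card_le_univ P
  have hB : 0 < 1 / τ ^ 2 / n ^ 3 := by positivity
  obtain ⟨f, w, f0, f1, f2, w1, w2, w3, w4, w5⟩ := optB (fun T => InP P T ∧ ER R true T)
    (32 / η) _ (by positivity) hB.le
  rw [show 4 / (32 / η) = η / 8 by field_simp; norm_num] at w5
  have h1 : ∑ T, ind (1 / τ ^ 2 / n ^ 3 ≤ f T) ≤ τ ^ 2 * n ^ 4 := by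
    have a1 := lb2 _ f _ _ hB.le f0 (fun T hT => hT) le_rfl
    have a2 := sum_ld (fun _ => 1) f
    have a3 : ∀ T : Q4 V, f T * s4 (fun _ : V => (1 : ℝ)) T = 4 * f T := fun T => by
      unfold s4; ring
    simp only [a3, ← mul_sum, one_mul] at a2
    have a4 := sum_le_sum (s := univ) fun v _ => w5 v
    rw [h.one] at a4
    rw [← le_div_iff₀ hB] at a1
    refine a1.trans ?_
    rw [div_le_iff₀ hB, show τ ^ 2 * n ^ 4 * (1 / τ ^ 2 / n ^ 3) = n by field_simp]
    nlinarith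
  obtain ⟨b, hb⟩ : ∃ b : V → V → V → Prop, ∀ m u v, b m u v ↔
    m ∈ P ∧ u ∈ P ∧ v ∈ P ∧ R m u v ∧ 2 * w m + w u + w v < 0 := ⟨_, fun _ _ _ => Iff.rfl⟩
  have h2 : ∑ u, ∑ v, τ * n * ∑ m, ind (b m u v) ≤ ∑ u, ∑ v, ((τ * n) ^ 2 +
      ∑ m, ∑ m', ind (1 / τ ^ 2 / n ^ 3 ≤ f (u, v, m, m'))) := by
    refine sum_le_sum fun u _ => sum_le_sum fun v _ => ?_
    have a1 : ∑ m, ∑ m', ind (b m u v) * ind (b m' u v) ≤
        ∑ m, ∑ m', ind (1 / τ ^ 2 / n ^ 3 ≤ f (u, v, m, m')) := by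
      refine sum_le_sum fun m _ => sum_le_sum fun m' _ => ?_
      rw [← ind_and, hb, hb]
      refine ind_mono fun ⟨⟨c1, c2, c3, c4, c5⟩, d1, _, _, d4, d5⟩ => ?_
      by_contra e
      have := w2 (u, v, m, m') ⟨⟨c2, c3, c1, d1⟩, hR _ _ _ c4, hR _ _ _ d4⟩ (not_le.1 e)
      simp only [s4] at this
      linarith
    rw [← sum_mul_sum] at a1
    nlinarith [sq_nonneg (τ * n - ∑ m, ind (b m u v)), mul_nonneg (mul_pos hτ hn).le
      (sum_nonneg fun m (_ : m ∈ univ) => ind_nonneg (b m u v))]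
  simp only [Fintype.sum_prod_type] at h1
  simp only [sum_add_distrib, h.one, ← mul_sum] at h2
  have h3 : ∑ m, ∑ u, ∑ v, ind ((E m u v ∧ ¬R m u v) ∨ b m u v) ≤ 3 * τ * n ^ 3 := by
    have a1 := sum_le_sum (s := univ) fun m _ => sum_le_sum (s := univ) fun u _ =>
      sum_le_sum (s := univ) fun v _ => ind_or_le (E m u v ∧ ¬R m u v) (b m u v)
    simp only [sum_add_distrib] at a1
    have a2 : ∑ m, ∑ u, ∑ v, ind (b m u v) = ∑ u, ∑ v, ∑ m, ind (b m u v) := by
      rw [sum_comm]; exact sum_congr rfl fun _ _ => sum_comm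
    have a3 : ∑ u, ∑ v, ∑ m, ind (b m u v) ≤ 2 * τ * n ^ 3 := by
      refine le_of_mul_le_mul_left ?_ (mul_pos hτ hn)
      linarith
    rw [← hτe] at hε
    linarith
  have h4 := dual h hn a _ ha hd P hP w w1 _ h3 fun m hm u hu v hv e1 e2 => by
    by_contra e3
    rw [hb] at e2
    push Not at e2
    exact absurd (e2.2 hm hu hv (e2.1 e1)) e3
  have h5 : ∑ v ∈ P, w v * ld f v ≤ 0 := by
    rw [sum_subset (subset_univ P), sum_ld]
    · refine sum_nonpos fun T _ => ?_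
      by_cases e : f T = 0
      · rw [e, zero_mul]
      · exact mul_nonpos_of_nonneg_of_nonpos (f0 T) (w3 T e)
    · intro v _ hv
      by_contra e
      obtain ⟨T, hT, hv'⟩ := exists_of_ld_ne f v (right_ne_zero_of_mul e)
      obtain ⟨q1, q2, q3, q4⟩ := (f2 T hT).1
      rcases hv' with e | e | e | e <;> subst e <;> contradiction
  have hl : ∀ v, ld (fun T => f T / (1 + η / 8)) v = ld f v / (1 + η / 8) := fun v => by
    simp only [ld, sum_div, div_mul_eq_mul_div]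
  have hη8 : 0 < 1 + η / 8 := by positivity
  refine h0 (ER R) P n hn hn0 hPn (fun T => f T / (1 + η / 8)) (fun T => div_nonneg (f0 T) hη8.le)
    (fun T => (div_le_self (f0 T) (by linarith)).trans (f1 T))
    (fun T hT => ?_) (fun u => by rw [hl, div_le_one hη8]; exact w5 u) ?_
  · have := f2 T (fun e => hT (by simp only [e, zero_div]))
    exact ⟨this.1, true, this.2⟩
  have h6 : ∑ u ∈ P, (1 - ld (fun T => f T / (1 + η / 8)) u) ≤
      ∑ u ∈ P, (w u * ld f u - w u + η / 4) := by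
    refine sum_le_sum fun u _ => ?_
    have a1 : ld f u - η / 8 ≤ ld f u / (1 + η / 8) := by
      rw [le_div_iff₀ hη8]; nlinarith [w5 u]
    rw [hl]
    by_cases e : ld f u ≤ 1
    · rw [w4 u e]; linarith
    · nlinarith [mul_nonneg (show 0 ≤ w u + 1 by linarith [w1 u]) (show 0 ≤ ld f u - 1 by linarith),
        w5 u]
  refine h6.trans ?_
  rw [sum_add_distrib, sum_sub_distrib, sum_const, nsmul_eq_mul]
  rw [show 2 * (3 * τ) / a = η / 4 by rw [hτe]; field_simp; norm_num] at h4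
  linarith [mul_le_mul_of_nonneg_right hPn hη.le]

end Pool.Agent.H.MP_8a4838_co
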