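import Pool.Agent.H.MP_1ff796_co.Absorb4

namespace Pool.Agent.H.MP_8a4838_co

open Finset Pool.Agent.H.MP_b50c09_co Pool.Agent.H.MP_1ff796_co

theorem sum_cons {V : Type} [Fintype V] {k : ℕ} (φ : (Fin (k + 1) → V) → ℝ) :
    ∑ g, φ g = ∑ a, ∑ g : Fin k → V, φ (Matrix.vecCons a g) := by
  rw [← (Fin.consEquiv fun _ : Fin (k + 1) => V).sum_comp, Fintype.sum_prod_type]
  rfl

theorem sum_nil {V : Type} [Fintype V] (φ : (Fin 0 → V) → ℝ) : ∑ g, φ g = φ ![] := by
  rw [Fintype.sum_unique]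
  congr 1

theorem ind_le_sum {ι : Type} (s : Finset ι) (p : Prop) (q : ι → Prop) (h : p → ∃ i ∈ s, q i) :
    ind p ≤ ∑ i ∈ s, ind (q i) := by
  by_cases hp : p
  · obtain ⟨i, hi, hq⟩ := h hp
    rw [ind_pos hp, ← ind_pos hq]
    exact single_le_sum (f := fun i => ind (q i)) (fun _ _ => ind_nonneg _) hi
  · rw [ind_neg hp]; exact sum_nonneg fun _ _ => ind_nonneg _

theorem cleanK {V : Type} [Fintype V] [DecidableEq V] {k : ℕ} (n : ℝ)
    (hn : (Fintype.card V : ℝ) = n) (W : Finset V) (r : (Fin k → V) → Prop) :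
    n * ∑ g, ind (r g) ≤ n * ∑ g, ind (r g ∧ Function.Injective g ∧ ∀ i, g i ∉ W) +
      ((k : ℝ) ^ 2 + k * W.card) * n ^ k := by
  have hn0 : 0 ≤ n := by rw [← hn]; positivity
  have hO : Om k (univ : Finset V) = univ := Fintype.piFinset_univ
  have h1 : ∀ g : Fin k → V, ind (r g) ≤ ind (r g ∧ Function.Injective g ∧ ∀ i, g i ∉ W) +
      (∑ p ∈ (univ : Finset (Fin k)).offDiag, ∑ a, ind (g p.1 = a ∧ g p.2 = a) +
        ∑ i, ∑ a ∈ W, ind (g i = a)) := by
    intro g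
    have a1 := ind_split (r g) (¬(Function.Injective g ∧ ∀ i, g i ∉ W))
    rw [not_not] at a1
    have a2 : ind (¬(Function.Injective g ∧ ∀ i, g i ∉ W)) ≤
        ind (¬Function.Injective g) + ind (∃ i, g i ∈ W) := by
      refine le_trans (ind_mono fun h => ?_) (ind_or_le _ _)
      by_contra h2
      push Not at h2
      exact h h2
    have a3 : ind (¬Function.Injective g) ≤
        ∑ p ∈ (univ : Finset (Fin k)).offDiag, ∑ a, ind (g p.1 = a ∧ g p.2 = a) := by
      rw [← sum_product']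
      refine ind_le_sum _ _ (fun q : (Fin k × Fin k) × V => g q.1.1 = q.2 ∧ g q.1.2 = q.2)
        fun h => ?_
      obtain ⟨i, j, h1, h2⟩ := Function.not_injective_iff.1 h
      exact ⟨((i, j), g j), by simp [h2], h1, rfl⟩
    have a4 : ind (∃ i, g i ∈ W) ≤ ∑ i, ∑ a ∈ W, ind (g i = a) := by
      rw [← sum_product']
      refine ind_le_sum _ _ (fun q : Fin k × V => g q.1 = q.2) fun ⟨i, hi⟩ => ?_
      exact ⟨(i, g i), by simp [hi], rfl⟩
    linarith
  have h2 : ∀ p ∈ (univ : Finset (Fin k)).offDiag,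
      n * ∑ g : Fin k → V, ∑ a, ind (g p.1 = a ∧ g p.2 = a) ≤ n ^ k := by
    intro p hp
    rcases hn0.eq_or_lt with h0 | h0
    · rw [← h0, zero_mul]; positivity
    rw [sum_comm]
    have := sum_le_sum (s := univ) fun a _ =>
      cnt2 (univ : Finset V) p.1 p.2 (mem_offDiag.1 hp).2.2 a a
    rw [hO, card_univ, hn, ← mul_sum, sum_const, card_univ, nsmul_eq_mul, hn] at this
    refine le_of_mul_le_mul_left ?_ h0
    linarith
  have h3 : ∀ i : Fin k, n * ∑ g : Fin k → V, ∑ a ∈ W, ind (g i = a) ≤ W.card * n ^ k := by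
    intro i
    rw [sum_comm]
    have := sum_le_sum (s := W) fun a _ => cnt1 (univ : Finset V) i a
    rwa [hO, card_univ, hn, ← mul_sum, sum_const, nsmul_eq_mul] at this
  have h4 := sum_le_sum h2
  have h5 := sum_le_sum (s := univ) fun i _ => h3 i
  rw [← mul_sum, sum_comm, sum_const, nsmul_eq_mul] at h4 h5
  rw [card_univ, Fintype.card_fin] at h5
  have h6 : (((univ : Finset (Fin k)).offDiag.card : ℕ) : ℝ) ≤ (k : ℝ) ^ 2 := by
    have := card_le_univ (univ : Finset (Fin k)).offDiag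
    rw [Fintype.card_prod, Fintype.card_fin] at this
    rw [sq]; exact_mod_cast this
  have h7 := mul_le_mul_of_nonneg_left (sum_le_sum (s := univ) fun g _ => h1 g) hn0
  rw [sum_add_distrib, sum_add_distrib] at h7
  have h8 := mul_le_mul_of_nonneg_right h6 (show 0 ≤ n ^ k by positivity)
  linarith

open Classical in
noncomputable def cF {Γ τ : Type} (good : τ → Γ → Prop) (F : Finset Γ) (t : τ) : ℕ :=
  (F.filter (good t)).card

/-- Pairwise disjoint supports. -/
def PD {V Γ : Type} (sup : Γ → Finset V) (F : Finset Γ) : Prop :=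
  ∀ g ∈ F, ∀ g' ∈ F, g ≠ g' → Disjoint (sup g) (sup g')

theorem card_bU {V Γ : Type} [DecidableEq V] (sup : Γ → Finset V) (F : Finset Γ) (k : ℕ)
    (h : ∀ g ∈ F, (sup g).card ≤ k) : (F.biUnion sup).card ≤ k * F.card := by
  rw [mul_comm]; exact card_biUnion_le_card_mul _ _ _ h

theorem PD.insert {V Γ : Type} [DecidableEq V] [DecidableEq Γ] {sup : Γ → Finset V}
    {F : Finset Γ} (hF : PD sup F) {g : Γ} (h : Disjoint (sup g) (F.biUnion sup)) :
    PD sup (insert g F) := by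
  intro a ha b hb hab
  rcases mem_insert.1 ha with rfl | ha' <;> rcases mem_insert.1 hb with rfl | hb'
  · exact absurd rfl hab
  · exact h.mono_right (subset_biUnion_of_mem sup hb')
  · exact (h.mono_right (subset_biUnion_of_mem sup ha')).symm
  · exact hF a ha' b hb' hab

theorem pot {V Γ τ : Type} [DecidableEq V] [Fintype Γ] [Fintype τ] [Nonempty τ] [Nonempty Γ]
    (k : ℕ) (β w : ℝ) (hβ : 0 < β) (hβ1 : β ≤ 1) (sup : Γ → Finset V) (ok : Γ → Prop)
    (good : τ → Γ → Prop) (hs : ∀ g, ok g → (sup g).Nonempty ∧ (sup g).card ≤ k)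
    (h1 : ∀ W : Finset V, (W.card : ℝ) ≤ w → ∀ t,
      β * Fintype.card Γ ≤ ∑ g, ind (ok g ∧ Disjoint (sup g) W ∧ good t g)) (m : ℕ) :
    (k * m : ℝ) ≤ w → ∃ F : Finset Γ, (∀ g ∈ F, ok g) ∧ PD sup F ∧ F.card = m ∧
      ∑ t, (1 / 2 : ℝ) ^ cF good F t ≤ Fintype.card τ * (1 - β / 2) ^ m := by
  classical
  induction m with
  | zero => intro _; exact ⟨∅, by simp, by simp [PD], rfl, by simp [cF]⟩
  | succ m ih =>
    intro hm
    have hk : (0 : ℝ) ≤ k := by positivity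
    obtain ⟨F, hF0, hF, hFc, hΦ⟩ := ih (by push_cast at hm; linarith)
    have h2 := h1 (F.biUnion sup) (by
      have := card_bU sup F k fun g hg => (hs g (hF0 g hg)).2
      have h3 : ((F.biUnion sup).card : ℝ) ≤ k * F.card := by exact_mod_cast this
      rw [hFc] at h3
      push_cast at hm; linarith)
    set G := univ.filter fun g => ok g ∧ Disjoint (sup g) (F.biUnion sup) with hG
    have hmem : ∀ g ∈ G, ok g ∧ Disjoint (sup g) (F.biUnion sup) := fun g hg =>
      (mem_filter.1 hg).2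
    have h3 : ∀ t, β * Fintype.card Γ ≤ ∑ g ∈ G, ind (good t g) := by
      intro t
      refine (h2 t).trans ?_
      rw [hG, sum_filter]
      refine sum_le_sum fun g _ => ?_
      split_ifs with h
      · exact ind_mono fun h => h.2.2
      · rw [ind_neg fun h' => h ⟨h'.1, h'.2.1⟩]
    have hne : G.Nonempty := by
      by_contra h
      have := h3 (Classical.arbitrary _)
      rw [not_nonempty_iff_eq_empty.1 h, sum_empty] at this
      have h0 : (0 : ℝ) < Fintype.card Γ := by exact_mod_cast Fintype.card_pos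
      exact absurd this (not_le.2 (by positivity))
    have hGc : (G.card : ℝ) ≤ Fintype.card Γ := by exact_mod_cast card_le_univ G
    have hnot : ∀ g ∈ G, g ∉ F := fun g hg hgF => by
      obtain ⟨x, hx⟩ := (hs g (hmem g hg).1).1
      exact disjoint_left.1 (hmem g hg).2 hx (subset_biUnion_of_mem sup hgF hx)
    have hc : ∀ g ∈ G, ∀ t, (1 / 2 : ℝ) ^ cF good (insert g F) t =
        (1 / 2 : ℝ) ^ cF good F t * (1 - ind (good t g) / 2) := by
      intro g hg t
      unfold cF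
      rw [filter_insert]
      split_ifs with h
      · rw [card_insert_of_notMem (fun h' => hnot g hg (mem_filter.1 h').1), ind_pos h, pow_succ]
        norm_num
      · rw [ind_neg h]; simp
    have key : ∑ g ∈ G, ∑ t, (1 / 2 : ℝ) ^ cF good (insert g F) t ≤
        ∑ _g ∈ G, (Fintype.card τ : ℝ) * (1 - β / 2) ^ (m + 1) := by
      rw [sum_congr rfl fun g hg => sum_congr rfl fun t _ => hc g hg t, sum_comm, sum_const,
        nsmul_eq_mul]
      have h4 : ∀ t ∈ (univ : Finset τ), ∑ g ∈ G,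
          (1 / 2 : ℝ) ^ cF good F t * (1 - ind (good t g) / 2) ≤
          (1 / 2 : ℝ) ^ cF good F t * (G.card * (1 - β / 2)) := by
        intro t _
        rw [← mul_sum, sum_sub_distrib, ← sum_div, sum_const, nsmul_eq_mul]
        refine mul_le_mul_of_nonneg_left ?_ (by positivity)
        nlinarith [h3 t]
      refine (sum_le_sum h4).trans ?_
      rw [← sum_mul, pow_succ]
      have h5 := mul_le_mul_of_nonneg_right hΦ
        (show 0 ≤ (G.card : ℝ) * (1 - β / 2) from mul_nonneg (by positivity) (by linarith))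
      linarith
    obtain ⟨g, hg, hg2⟩ := exists_le_of_sum_le hne key
    refine ⟨insert g F, fun a ha => ?_, hF.insert (hmem g hg).2,
      by rw [card_insert_of_notMem (hnot g hg), hFc], hg2⟩
    rcases mem_insert.1 ha with rfl | ha
    exacts [(hmem _ hg).1, hF0 a ha]

theorem family (k e : ℕ) (hk : 0 < k) (β γ : ℝ) (hβ : 0 < β) (hβ1 : β ≤ 1) (hγ : 0 < γ) :
    ∃ ζ : ℝ, 0 < ζ ∧ ∃ n0 : ℝ, ∀ {V Γ τ : Type} [DecidableEq V] [Fintype Γ] [Fintype τ]
      [Nonempty τ] [Nonempty Γ] (n : ℝ), n0 ≤ n → (Fintype.card τ : ℝ) ≤ n ^ e →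
      ∀ (sup : Γ → Finset V) (ok : Γ → Prop) (good : τ → Γ → Prop),
      (∀ g, ok g → (sup g).Nonempty ∧ (sup g).card ≤ k) →
      (∀ W : Finset V, (W.card : ℝ) ≤ γ * n → ∀ t,
        β * Fintype.card Γ ≤ ∑ g, ind (ok g ∧ Disjoint (sup g) W ∧ good t g)) →
      ∃ F : Finset Γ, (∀ g ∈ F, ok g) ∧ PD sup F ∧ (k * F.card : ℝ) ≤ γ * n ∧
        ∀ t, ζ * n ≤ cF good F t := by
  obtain ⟨L0, hL0⟩ := exists_pow_lt_of_lt_one (show (0 : ℝ) < 1 / 4 by norm_num)
    (show 1 - β / 2 < 1 by linarith)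
  have hL : (1 - β / 2) ^ (L0 + 1) ≤ 1 / 4 := by
    have h0 : 0 ≤ (1 - β / 2) ^ L0 := pow_nonneg (by linarith) _
    rw [pow_succ]; nlinarith
  obtain ⟨ζ, hζ, hζ2⟩ : ∃ ζ : ℝ, 0 < ζ ∧ k * ((L0 + 1 : ℕ) : ℝ) * ζ = γ :=
    ⟨γ / (k * ((L0 + 1 : ℕ) : ℝ)), by positivity, by field_simp⟩
  obtain ⟨k0, hk0⟩ := grow e ζ hζ
  refine ⟨ζ, hζ, (k0 + 2) / ζ, ?_⟩
  intro V Γ τ _ _ _ _ _ n hn0 hτ sup ok good hs h1
  have hn2 : (k0 : ℝ) + 2 ≤ ζ * n := by
    rw [div_le_iff₀ hζ] at hn0; linarith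
  have hnn : 0 < n := by
    by_contra h
    have : ζ * n ≤ 0 := mul_nonpos_of_nonneg_of_nonpos hζ.le (not_lt.1 h)
    have : (0 : ℝ) ≤ k0 := by positivity
    linarith
  obtain ⟨j, hk1, hk2⟩ : ∃ j : ℕ, (j : ℝ) ≤ ζ * n ∧ ζ * n < j + 1 :=
    ⟨⌊ζ * n⌋₊, Nat.floor_le (by positivity), Nat.lt_floor_add_one _⟩
  have hk3 : k0 ≤ j := by
    have : (k0 : ℝ) ≤ j := by linarith
    exact_mod_cast this
  have hm : (k * (((L0 + 1) * j : ℕ) : ℝ)) ≤ γ * n := by
    rw [← hζ2, Nat.cast_mul]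
    have := mul_le_mul_of_nonneg_left hk1 (show 0 ≤ k * ((L0 + 1 : ℕ) : ℝ) by positivity)
    linarith
  obtain ⟨F, hF0, hF, hFc, hΦ⟩ := pot k β (γ * n) hβ hβ1 sup ok good hs h1 ((L0 + 1) * j) hm
  refine ⟨F, hF0, hF, by rwa [hFc], fun t => ?_⟩
  have h2 := single_le_sum (f := fun t => (1 / 2 : ℝ) ^ cF good F t) (fun _ _ => by positivity)
    (mem_univ t)
  have h3 : (1 - β / 2) ^ ((L0 + 1) * j) ≤ (1 / 4) ^ j := by
    rw [pow_mul]; exact pow_le_pow_left₀ (pow_nonneg (by linarith) _) hL j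
  have h4 : n ^ e < 2 ^ j := by
    refine lt_of_le_of_lt (pow_le_pow_left₀ hnn.le ?_ e) (hk0 j hk3)
    rw [le_div_iff₀ hζ]; linarith
  have h5 : (1 / 2 : ℝ) ^ cF good F t < (1 / 2) ^ j := by
    calc (1 / 2 : ℝ) ^ cF good F t ≤ Fintype.card τ * (1 - β / 2) ^ ((L0 + 1) * j) :=
          h2.trans hΦ
      _ ≤ n ^ e * (1 / 4) ^ j :=
          mul_le_mul hτ h3 (pow_nonneg (by linarith) _) (by positivity)
      _ < 2 ^ j * (1 / 4) ^ j := by gcongr
      _ = (1 / 2) ^ j := by rw [← mul_pow]; norm_num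
  have h6 : j < cF good F t := by
    by_contra h
    exact absurd (pow_le_pow_of_le_one (by norm_num) (by norm_num) (not_lt.1 h)) (not_le.2 h5)
  have h7 : (j : ℝ) + 1 ≤ cF good F t := by exact_mod_cast h6
  linarith

/-- Greedy choice of disjoint objects. -/
theorem greedy {V Γ : Type} [DecidableEq V] (k w : ℕ) (sup : Γ → Finset V) (ok : Γ → Prop)
    (hs : ∀ g, ok g → (sup g).Nonempty ∧ (sup g).card ≤ k)
    (h1 : ∀ W : Finset V, W.card ≤ w → ∃ g, ok g ∧ Disjoint (sup g) W) (m : ℕ) :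
    k * m ≤ w → ∃ F : Finset Γ, (∀ g ∈ F, ok g) ∧ PD sup F ∧ F.card = m := by
  classical
  induction m with
  | zero => intro _; exact ⟨∅, by simp, by simp [PD], rfl⟩
  | succ m ih =>
    intro hm
    have e : k * (m + 1) = k * m + k := by ring
    obtain ⟨F, hF0, hF, hFc⟩ := ih (by omega)
    obtain ⟨g, hg, hd⟩ := h1 (F.biUnion sup) (by
      have := card_bU sup F k fun g hg => (hs g (hF0 g hg)).2
      rw [hFc] at this; omega)
    have hnot : g ∉ F := fun hgF => by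
      obtain ⟨x, hx⟩ := (hs g hg).1
      exact disjoint_left.1 hd hx (subset_biUnion_of_mem sup hgF hx)
    refine ⟨insert g F, fun a ha => ?_, hF.insert hd, by rw [card_insert_of_notMem hnot, hFc]⟩
    rcases mem_insert.1 ha with rfl | ha
    exacts [hg, hF0 a ha]

end Pool.Agent.H.MP_8a4838_co
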