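import Pool.Agent.H.MP_8a4838_co.StA

namespace Pool.Agent.H.MP_8a4838_co

open Finset Pool.Agent.H.MP_b50c09_co Pool.Agent.H.MP_1ff796_co

theorem cs3 {α β κ : Type} [Fintype α] [Fintype β] [Fintype κ] (r : α → β → κ → Prop)
    (ρ : ℝ) (hρ : 0 < ρ) (a b c : ℝ) (ha : (Fintype.card α : ℝ) = a)
    (hb : (Fintype.card β : ℝ) = b) (hc : (Fintype.card κ : ℝ) = c)
    (h : ρ * (a * b * c) ≤ ∑ x, ∑ y, ∑ z, ind (r x y z)) :
    ρ ^ 2 * (b * c * (a * a)) ≤ ∑ y, ∑ z, ∑ p : α × α, ind (r p.1 y z ∧ r p.2 y z) := by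
  have h1 : ∑ y, ∑ z, (2 * (ρ * a) * ∑ x, ind (r x y z) - (ρ * a) ^ 2) ≤
      ∑ y, ∑ z, ∑ p : α × α, ind (r p.1 y z ∧ r p.2 y z) := by
    refine sum_le_sum fun y _ => sum_le_sum fun z _ => ?_
    simp only [Fintype.sum_prod_type, ind_and]
    rw [← sum_mul_sum]
    nlinarith [sq_nonneg (ρ * a - ∑ x, ind (r x y z))]
  have h2 : ∑ x, ∑ y, ∑ z, ind (r x y z) = ∑ y, ∑ z, ∑ x, ind (r x y z) := by
    rw [sum_comm]; exact sum_congr rfl fun _ _ => sum_comm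
  simp only [sum_sub_distrib, ← mul_sum, sum_const, card_univ, nsmul_eq_mul, hb, hc] at h1
  have h3 : 0 ≤ 2 * (ρ * a) := by rw [← ha]; positivity
  have h4 := mul_le_mul_of_nonneg_left (h.trans h2.le) h3
  linarith

variable {V : Type} [Fintype V] {E C : V → V → V → Prop} {n : ℝ}

theorem le_cons {k : ℕ} (φ : (Fin (k + 1) → V) → Prop) (h : V → ℝ)
    (h1 : ∀ a, h a ≤ ∑ g : Fin k → V, ind (φ (Matrix.vecCons a g))) :
    ∑ a, h a ≤ ∑ g, ind (φ g) := by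
  rw [sum_cons]; exact sum_le_sum fun a _ => h1 a

theorem le_nil (φ : (Fin 0 → V) → Prop) (p : Prop) (h : p → φ ![]) : ind p ≤ ∑ g, ind (φ g) := by
  rw [sum_nil]; exact ind_mono h

theorem le_cons4 {k : ℕ} (φ : (Fin (k + 4) → V) → Prop) (h : (V × V) × (V × V) → ℝ)
    (h1 : ∀ p, h p ≤ ∑ g : Fin k → V, ind (φ (Matrix.vecCons p.1.1 (Matrix.vecCons p.1.2
      (Matrix.vecCons p.2.1 (Matrix.vecCons p.2.2 g)))))) : ∑ p, h p ≤ ∑ g, ind (φ g) := by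
  simp only [Fintype.sum_prod_type]
  exact le_cons _ _ fun a => le_cons _ _ fun b => le_cons _ _ fun c => le_cons _ _ fun d =>
    h1 ((a, b), c, d)

noncomputable def dg (A : V → V → V → Prop) (v : V) : ℝ := ∑ y, ∑ z, ind (A v y z)

theorem Hy.dg_le (h : Hy E n) (A : V → V → V → Prop) (v : V) : dg A v ≤ n ^ 2 := by
  have := sum_le_sum (s := univ) fun y _ => h.le (A v y)
  rwa [h.one, ← sq] at this

theorem poor_le (A : V → V → V → Prop) (c : ℝ) (hc : 0 ≤ c) (v : V) :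
    ind (¬c ≤ dg A v) * dg A v ≤ ind (¬c ≤ dg A v) * c := by
  by_cases e : c ≤ dg A v
  · rw [ind_neg (not_not.2 e), zero_mul, zero_mul]
  · rw [ind_pos e]; linarith

theorem one_ar (n p ρ : ℝ) (hn : 0 < n) (hρ : 0 < ρ) (hρ1 : ρ ≤ 1 / 100) (m : ℝ) (hm : m ≤ ρ * n)
    (h1 : 100 * ρ * n ^ 3 ≤ n * (ρ * n ^ 2) + (p + m) * n ^ 2)
    (h2 : p * (7 / 16 * n ^ 2) ≤ p * (ρ * n ^ 2) + p * (p * p) + p * (m * n) + p * (n * m) +
      n * (ρ * n ^ 2) + n * (ρ * n ^ 2)) : n / 2 < p := by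
  by_contra h3
  have hn2 : 0 < n ^ 2 := by positivity
  have a1 : 98 * (ρ * n) ≤ p := le_of_mul_le_mul_right (by nlinarith) hn2
  have a0 : 0 < ρ * n := by positivity
  have hp : 0 < p := by linarith
  have a2 : p * p ≤ n / 2 * (n / 2) := mul_self_le_mul_self hp.le (not_lt.1 h3)
  have a3 := mul_le_mul_of_nonneg_left a2 hp.le
  have a4 := mul_le_mul_of_nonneg_left hm (mul_pos hp hn).le
  have a5 := mul_le_mul_of_nonneg_left hρ1 (mul_pos hp hn2).le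
  have a6 := mul_le_mul_of_nonneg_right a1 hn2.le
  have a7 := mul_pos a0 hn2
  nlinarith

theorem Hy.oneside (h : Hy E n) (hn : 0 < n) (A B : V → V → V → Prop)
    (hAB : ∀ x y z, E x y z → A x y z ∨ B x y z) (A1 : ∀ x y z, A x y z → A y x z)
    (A2 : ∀ x y z, A x y z → A x z y) (ρ : ℝ) (hρ : 0 < ρ) (hρ1 : ρ ≤ 1 / 100)
    (hA : 100 * ρ * n ^ 3 ≤ ∑ v, dg A v)
    (hm : ∑ v, ind (ρ * n ^ 2 ≤ dg A v ∧ ρ * n ^ 2 ≤ dg B v) ≤ ρ * n) :
    n / 2 < ∑ v, ind (¬ρ * n ^ 2 ≤ dg B v) := by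
  have hc : 0 ≤ ρ * n ^ 2 := by positivity
  generalize hc' : ρ * n ^ 2 = c at *
  have h1 : ∑ v, dg A v ≤ ∑ v, (c + (ind (¬c ≤ dg B v) + ind (c ≤ dg A v ∧ c ≤ dg B v)) * n ^ 2) := by
    refine sum_le_sum fun v _ => ?_
    have := h.dg_le A v
    rw [ind_and, ind_not]
    by_cases a : c ≤ dg A v
    · rw [ind_pos a]; linarith
    · rw [ind_neg a]
      nlinarith [mul_nonneg (sub_nonneg.2 (ind_le_one (c ≤ dg B v))) (sq_nonneg n)]
  rw [sum_add_distrib, h.one, ← sum_mul, sum_add_distrib] at h1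
  have h2 : ∑ v, ∑ y, ∑ z, ind (¬c ≤ dg B v) * ind (E v y z) ≤ ∑ v, ∑ y, ∑ z,
      (ind (¬c ≤ dg B v) * ind (B v y z) +
        ind (¬c ≤ dg B v) * (ind (¬c ≤ dg B y) * ind (¬c ≤ dg B z)) +
        ind (¬c ≤ dg B v) * (ind (c ≤ dg A y ∧ c ≤ dg B y) * 1) +
        ind (¬c ≤ dg B v) * (1 * ind (c ≤ dg A z ∧ c ≤ dg B z)) +
        ind (¬c ≤ dg A y) * ind (A y v z) + ind (¬c ≤ dg A z) * ind (A z v y)) := by
    refine sum_le_sum fun v _ => sum_le_sum fun y _ => sum_le_sum fun z _ => ?_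
    simp only [one_mul, mul_one, ← ind_and]
    refine le_trans (ind_mono fun ⟨e1, e2⟩ => ?_) ((ind_or_le _ _).trans (add_le_add_left
      ((ind_or_le _ _).trans (add_le_add_left ((ind_or_le _ _).trans (add_le_add_left
      ((ind_or_le _ _).trans (add_le_add_left (ind_or_le _ _) _)) _)) _)) _))
    rcases hAB v y z e2 with e | e
    · have e3 := A1 _ _ _ e
      have e4 := A1 _ _ _ (A2 _ _ _ e)
      by_cases a1 : c ≤ dg A y <;> by_cases a2 : c ≤ dg A z <;> by_cases a3 : c ≤ dg B y <;>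
        by_cases a4 : c ≤ dg B z <;> simp [*]
    · simp [*]
  have h3 : ∑ v, ∑ y, ∑ z, ind (¬c ≤ dg A y) * ind (A y v z) ≤ n * c := by
    rw [sum_comm]
    simp only [← mul_sum]
    refine (sum_le_sum fun v _ => poor_le A c hc v).trans ?_
    rw [← sum_mul]
    exact mul_le_mul_of_nonneg_right (h.le _) hc
  have h4 : ∑ v, ∑ y, ∑ z, ind (¬c ≤ dg A z) * ind (A z v y) ≤ n * c := by
    refine le_trans (le_of_eq ?_) h3
    exact sum_congr rfl fun _ _ => sum_comm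
  have h5 : ∑ v, ind (¬c ≤ dg B v) * ∑ y, ∑ z, ind (B v y z) ≤ ∑ v, ind (¬c ≤ dg B v) * c :=
    sum_le_sum fun v _ => poor_le B c hc v
  have h6 := sum_le_sum (s := univ) fun v _ =>
    mul_le_mul_of_nonneg_left (h.deg v) (ind_nonneg (¬c ≤ dg B v))
  simp only [sum_add_distrib] at h2
  simp only [← mul_sum, ← sum_mul, h.one, mul_one] at h2 h3 h4 h5 h6
  refine one_ar n _ ρ hn hρ hρ1 _ hm (by rw [hc']; linarith) ?_
  rw [hc']
  linarith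


theorem Hy.both (h : Hy E n) (hn : 0 < n) (A B : V → V → V → Prop)
    (hAB : ∀ x y z, E x y z → A x y z ∨ B x y z) (A1 : ∀ x y z, A x y z → A y x z)
    (A2 : ∀ x y z, A x y z → A x z y) (B1 : ∀ x y z, B x y z → B y x z)
    (B2 : ∀ x y z, B x y z → B x z y) (ρ : ℝ) (hρ : 0 < ρ) (hρ1 : ρ ≤ 1 / 100)
    (hA : 100 * ρ * n ^ 3 ≤ ∑ v, dg A v) (hB : 100 * ρ * n ^ 3 ≤ ∑ v, dg B v) :
    ρ * n ≤ ∑ v, ind (ρ * n ^ 2 ≤ dg A v ∧ ρ * n ^ 2 ≤ dg B v) := by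
  by_contra h0
  have h1 := h.oneside hn A B hAB A1 A2 ρ hρ hρ1 hA (not_le.1 h0).le
  have h2 := h.oneside hn B A (fun x y z e => (hAB x y z e).symm) B1 B2 ρ hρ hρ1 hB
    (le_trans (sum_le_sum fun _ _ => ind_mono And.symm) (not_le.1 h0).le)
  have h3 : ∑ v, (ind (¬ρ * n ^ 2 ≤ dg B v) + ind (¬ρ * n ^ 2 ≤ dg A v)) ≤ ∑ _v : V, (1 : ℝ) := by
    refine sum_le_sum fun v _ => ind_two fun ⟨a, b⟩ => ?_
    have a1 : ∑ y, ∑ z, ind (E v y z) ≤ ∑ y, ∑ z, (ind (A v y z) + ind (B v y z)) :=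
      sum_le_sum fun y _ => sum_le_sum fun z _ => (ind_mono (hAB v y z)).trans (ind_or_le _ _)
    simp only [sum_add_distrib] at a1
    unfold dg at a b
    nlinarith [h.deg v, mul_le_mul_of_nonneg_right hρ1 (sq_nonneg n), sq_nonneg n]
  rw [sum_add_distrib, h.one] at h3
  linarith

def Hf (A : V → V → V → Prop) (u u' a b b' c c' : V) : Prop :=
  A u b c ∧ A u' b c' ∧ A a b' c' ∧ A a b c

def Sw (A B : V → V → V → Prop) (g : Fin 12 → V) : Prop :=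
  Hf A (g 8) (g 9) (g 10) (g 0) (g 2) (g 4) (g 6) ∧ Hf B (g 8) (g 9) (g 11) (g 1) (g 3) (g 5) (g 7)

theorem Hy.sw (h : Hy E n) (A B : V → V → V → Prop) (ρ : ℝ) (hρ : 0 < ρ)
    (h1 : ρ * n ≤ ∑ v, ind (ρ * n ^ 2 ≤ dg A v ∧ ρ * n ^ 2 ≤ dg B v)) :
    ρ ^ 48 * n ^ 12 ≤ ∑ g, ind (Sw A B g) := by
  have hn := h.nn
  have c1 := h.card
  have c2 : (Fintype.card (V × V) : ℝ) = n * n := by rw [Fintype.card_prod, Nat.cast_mul, c1]
  have c4 : (Fintype.card ((V × V) × (V × V)) : ℝ) = n * n * (n * n) := by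
    rw [Fintype.card_prod, Nat.cast_mul, c2]
  have h2 : ρ ^ 3 * (n * (n * n) * (n * n)) ≤
      ∑ u, ∑ b : V × V, ∑ c : V × V, ind (A u b.1 c.1 ∧ B u b.2 c.2) := by
    refine le_trans (le_of_eq (by ring)) (lb2 _ _ (ρ * n ^ 2 * (ρ * n ^ 2)) _ (by positivity)
      (fun _ => sum_nonneg fun _ _ => sum_nonneg fun _ _ => ind_nonneg _) (fun u hu => ?_) h1)
    simp only [Fintype.sum_prod_type, ind_and, ← sum_mul_sum]
    exact mul_le_mul hu.1 hu.2 (by positivity) (le_trans (by positivity) hu.1)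
  have h3 := cs3 _ _ (by positivity) _ _ _ c2 c4 c4 (cs3 _ _ (by positivity) _ _ _ c2 c2 c4
    (cs3 _ _ (by positivity) _ _ _ c2 c2 c2 (cs3 _ _ (by positivity) _ _ _ c1 c2 c2 h2)))
  refine le_trans (le_of_eq (by ring)) (h3.trans ?_)
  exact le_cons4 _ _ fun _ => le_cons4 _ _ fun _ => le_cons4 _ _ fun _ => le_nil _ _ fun e =>
    ⟨⟨e.1.1.1.1.1, e.1.2.1.2.1, e.2.2.2.1.1, e.2.1.1.1.1⟩,
      e.1.1.1.1.2, e.1.2.1.2.2, e.2.2.2.2.2, e.2.1.1.2.2⟩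

variable [DecidableEq V]

theorem seg (h : Hy E n) {A : V → V → V → Prop} (hA : ∀ x y z, A x y z → E x y z) (ι : ℝ)
    (C1 : ∀ x y z, C x y z → C y x z) (C2 : ∀ x y z, C x y z → C x z y)
    (hι : ∀ x y z, A x y z → ind (C x y z) = ι) {u u' a b b' c c' : V} (h1 : Hf A u u' a b b' c c')
    (h2 : [u, b, u', c', a, b'].Nodup) :
    Pth E C c b' {b, a, c', b'} (2 * ι) ∧ Pth E C c b' {u, b, u', c', a, b'} (3 * ι) := by
  obtain ⟨a1, a2, a3, a4⟩ := h1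
  have e1 : ∀ x y z, ind (C x y z) = ind (C y x z) := fun x y z => ind_congr ⟨C1 _ _ _, C1 _ _ _⟩
  have e2 : ∀ x y z, ind (C x y z) = ind (C x z y) := fun x y z => ind_congr ⟨C2 _ _ _, C2 _ _ _⟩
  refine ⟨⟨[(b, a), (c', b')], ⟨h.s3 (hA _ _ _ a4), h.s2 _ _ _ (hA _ _ _ a3), rfl⟩, ?_,
    fun v => by simp [fl], ?_⟩, ⟨[(u, b), (u', c'), (a, b')],
    ⟨h.s1 _ _ _ (h.s2 _ _ _ (hA _ _ _ a1)), h.s1 _ _ _ (hA _ _ _ a2),
      h.s1 _ _ _ (h.s2 _ _ _ (hA _ _ _ a3)), rfl⟩, h2, fun v => by simp [fl], ?_⟩⟩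
  · simp only [fl, List.nodup_cons, List.mem_cons, List.not_mem_nil, not_or] at h2 ⊢
    tauto
  · simp only [ct]
    rw [e1 c, e2 b, e1 b, hι _ _ _ a4, e2 a, hι _ _ _ a3]; ring
  · simp only [ct]
    rw [e1 c, e2 u, hι _ _ _ a1, e1 b, hι _ _ _ a2, e1 c', e2 a, hι _ _ _ a3]; ring

/-- A segment whose count can be raised by one. -/
def Fx (E C : V → V → V → Prop) (g : V × V × Finset V) : Prop :=
  g.1 ∉ g.2.2 ∧ (insert g.1 g.2.2).card ≤ 15 ∧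
    ∃ r, Pth E C g.1 g.2.1 g.2.2 r ∧ Pth E C g.1 g.2.1 g.2.2 (r + 1)

theorem Hy.fx (h : Hy E n) (hn : 10 ^ 9 ≤ n)
    (C1 : ∀ x y z, C x y z → C y x z) (C2 : ∀ x y z, C x y z → C x z y) {g : Fin 12 → V}
    (h1 : Sw (fun x y z => E x y z ∧ C x y z) (fun x y z => E x y z ∧ ¬C x y z) g)
    (hg : Function.Injective g) (W : Finset V) (hW : ∀ i, g i ∉ W)
    (hW1 : (W.card : ℝ) ≤ n / 10 ^ 8) : ∃ p, Fx E C p ∧ Disjoint (insert p.1 p.2.2) W := by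
  obtain ⟨p1, p2⟩ := seg h (fun _ _ _ e => e.1) 1 C1 C2 (fun _ _ _ e => ind_pos e.2) h1.1
    (by simp [hg.eq_iff])
  obtain ⟨q1, q2⟩ := seg h (fun _ _ _ e => e.1) 0 C1 C2 (fun _ _ _ e => ind_neg e.2) h1.2
    (by simp [hg.eq_iff])
  have c12 : (univ.image g).card ≤ 12 := card_image_le.trans (by simp)
  obtain ⟨T, hT1, hT2, -, c, hT⟩ := h.orc (C := C) (by linarith) (W ∪ univ.image g) 0 (by
    have a1 : ((W ∪ univ.image g).card : ℝ) ≤ W.card + (univ.image g).card := by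
      exact_mod_cast card_union_le _ _
    have a2 : ((univ.image g).card : ℝ) ≤ 12 := by exact_mod_cast c12
    push_cast
    linarith) (g 2) (g 5) ∅ (by simp) le_rfl
  have hT3 : ∀ i, g i ∉ T := fun i e => by simpa using hT1 e
  have hT4 : Disjoint T W := disjoint_left.2 fun v hv e => by simpa [e] using hT1 hv
  have r1 := (p1.trans hT (by simp [hg.eq_iff, hT3])).trans q2 (by simp [hg.eq_iff, hT3])
  have r2 := (p2.trans hT (by simp [hg.eq_iff, hT3])).trans q1 (by simp [hg.eq_iff, hT3])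
  refine ⟨(g 4, g 3, _), ⟨by simp [hg.eq_iff, hT3], ?_, _, r1, r2.congr ?_ (by ring)⟩,
    by simp [hW, hT4]⟩
  · refine (card_le_card (t := univ.image g ∪ T) ?_).trans
      ((card_union_le _ _).trans (by omega))
    simp [insert_subset_iff]
  · ext v
    simp only [mem_union, mem_insert, mem_singleton, or_assoc, or_comm, or_left_comm]

theorem stageS (ε γ : ℝ) (hε : 0 < ε) (hε1 : ε ≤ 1) (hγ : 0 < γ) (hγ1 : γ ≤ 1 / 10 ^ 15) :
    ∃ δ : ℝ, 0 < δ ∧ ∃ n0 : ℝ,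
    ∀ {V : Type} [Fintype V] [DecidableEq V] (E C : V → V → V → Prop) (n : ℝ), Hy E n → n0 ≤ n →
    (∀ x y z, C x y z → C y x z) → (∀ x y z, C x y z → C x z y) →
    ε * n ^ 3 ≤ ∑ x, ∑ y, ∑ z, ind (E x y z ∧ C x y z) →
    ε * n ^ 3 ≤ ∑ x, ∑ y, ∑ z, ind (E x y z ∧ ¬C x y z) → ∀ z : V, ∃ B z' r k, z ∉ B ∧
      (B.card : ℝ) + 1 ≤ γ * n ∧ δ * n ≤ k ∧ Pth E C z z' B r ∧ Pth E C z z' B (r + k) := by
  obtain ⟨b, hb, hbe⟩ : ∃ b : ℝ, 0 < b ∧ b = (ε / 100) ^ 48 := ⟨_, by positivity, rfl⟩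
  obtain ⟨δ, hδ, hδ1, hδ2⟩ : ∃ δ : ℝ, 0 < δ ∧ 1000 * δ ≤ b ∧ 100 * δ ≤ γ :=
    ⟨min (b / 1000) (γ / 100), by positivity, by linarith [min_le_left (b / 1000) (γ / 100)],
      by linarith [min_le_right (b / 1000) (γ / 100)]⟩
  refine ⟨δ, hδ, max (10 ^ 9) (10 / δ), ?_⟩
  intro V _ _ E C n h hn C1 C2 hA hB z
  have hn1 : 10 ^ 9 ≤ n := le_of_max_le_left hn
  have hn0 : 0 < n := by linarith
  have hn2 : 10 ≤ n * δ := (div_le_iff₀ hδ).1 (le_of_max_le_right hn)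
  have hδn := mul_le_mul_of_nonneg_right hδ1 hn0.le
  have hδn2 := mul_le_mul_of_nonneg_right hδ2 hn0.le
  have hγn := mul_le_mul_of_nonneg_right hγ1 hn0.le
  have h1 := h.sw _ _ (ε / 100) (by positivity) (h.both hn0 (fun x y z => E x y z ∧ C x y z)
    (fun x y z => E x y z ∧ ¬C x y z) (fun x y z e => by tauto)
    (fun x y z e => ⟨h.s1 _ _ _ e.1, C1 _ _ _ e.2⟩) (fun x y z e => ⟨h.s2 _ _ _ e.1, C2 _ _ _ e.2⟩)
    (fun x y z e => ⟨h.s1 _ _ _ e.1, mt (C1 _ _ _) e.2⟩)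
    (fun x y z e => ⟨h.s2 _ _ _ e.1, mt (C2 _ _ _) e.2⟩) (ε / 100) (by positivity) (by linarith)
    (le_trans (le_of_eq (by ring)) hA) (le_trans (le_of_eq (by ring)) hB))
  rw [← hbe] at h1
  obtain ⟨k, hk1, hk2⟩ : ∃ k : ℕ, δ * n ≤ k ∧ (k : ℝ) < δ * n + 1 :=
    ⟨_, Nat.le_ceil _, Nat.ceil_lt_add_one (by positivity)⟩
  obtain ⟨F, hF0, hF, hFc⟩ := greedy 15 (15 * k) (fun p : V × V × Finset V => insert p.1 p.2.2)
    (fun p => Fx E C p ∧ z ∉ insert p.1 p.2.2) (fun p hp => ⟨insert_nonempty _ _, hp.1.2.1⟩)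
    (fun W hW => by
      have a1 : ((insert z W).card : ℝ) ≤ 15 * k + 1 := by
        exact_mod_cast (card_insert_le z W).trans (Nat.succ_le_succ hW)
      have a2 := h.clean hn0 _ _ h1 (insert z W) (by push_cast; linarith)
      obtain ⟨g, -, hg⟩ := exists_ne_zero_of_sum_ne_zero (lt_of_lt_of_le (by positivity) a2).ne'
      obtain ⟨a3, a4, a5⟩ := of_ind_ne_zero hg
      obtain ⟨p, p1, p2⟩ := h.fx hn1 C1 C2 a3 a4 _ a5 (by linarith)
      rw [disjoint_insert_right] at p2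
      exact ⟨p, ⟨p1, p2.1⟩, p2.2⟩) k le_rfl
  have hc : ((F.biUnion fun p => insert p.1 p.2.2).card : ℝ) ≤ 15 * k := by
    exact_mod_cast hFc ▸ card_bU _ F 15 fun p hp => (hF0 p hp).1.2.1
  have hO := h.orc (C := C) (by linarith) (insert z (F.biUnion fun p => insert p.1 p.2.2))
    (3 * F.card) (by
      have a1 : ((insert z (F.biUnion fun p => insert p.1 p.2.2)).card : ℝ) ≤
        (F.biUnion fun p => insert p.1 p.2.2).card + 1 := by exact_mod_cast card_insert_le _ _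
      rw [hFc]
      push_cast
      linarith)
  have hs : ∀ p ∈ F, insert p.1 p.2.2 ⊆ insert z (F.biUnion fun p => insert p.1 p.2.2) :=
    fun p hp => (subset_biUnion_of_mem (fun p : V × V × Finset V => insert p.1 p.2.2) hp).trans
      (subset_insert _ _)
  obtain ⟨D, hD1, hD2, z', c0, -, h2⟩ := link hO (fun p => p.1) (fun p => p.2.1) z F le_rfl
    fun p hp e => mem_compl.1 e (hs p hp (mem_insert_self _ _))
  choose! r hr using fun p hp => (hF0 p hp).1.2.2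
  have hD3 : ∀ p ∈ F, Disjoint p.2.2 D := fun p hp =>
    disjoint_compl_right.mono ((subset_insert _ _).trans (hs p hp)) hD1
  refine ⟨_, z', _, k, ?_, ?_, hk1,
    h2 (fun p => p.2.2) r (fun p hp => ⟨(hr p hp).1, (hF0 p hp).1.1, hD3 p hp⟩) hF,
    (h2 (fun p => p.2.2) (fun p => r p + 1)
      (fun p hp => ⟨(hr p hp).2, (hF0 p hp).1.1, hD3 p hp⟩) hF).congr rfl ?_⟩
  · rw [mem_union, mem_biUnion, not_or]
    exact ⟨fun e => mem_compl.1 (hD1 e) (mem_insert_self _ _), fun ⟨p, hp, e⟩ => (hF0 p hp).2 e⟩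
  · have a1 : ((D ∪ F.biUnion fun p => insert p.1 p.2.2).card : ℝ) ≤
      D.card + (F.biUnion fun p => insert p.1 p.2.2).card := by exact_mod_cast card_union_le _ _
    have a2 : (D.card : ℝ) ≤ 3 * k := by exact_mod_cast hFc ▸ hD2
    linarith
  · rw [sum_add_distrib, sum_const, hFc, nsmul_eq_mul, mul_one, add_assoc]

end Pool.Agent.H.MP_8a4838_co
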