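import Pool.Agent.H.MP_8a4838_co.StT
import Pool.Agent.H.MP_8a4838_co.StS

namespace Pool.Agent.H.MP_8a4838_co

open Finset Pool.Agent.H.MP_b50c09_co Pool.Agent.H.MP_1ff796_co

theorem ct_compl {V : Type} (C : V → V → V → Prop) (l : List (V × V)) :
    ∀ x, ct (fun x y z => ¬C x y z) x l = l.length - ct C x l := by
  induction l with
  | nil => intro x; simp [ct]
  | cons p l ih => intro x; simp only [ct, ih, ind_not, List.length_cons]; push_cast; ring

theorem len_of {V : Type} [DecidableEq V] {S : Finset V} {l : List (V × V)} (a2 : (fl l).Nodup)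
    (a3 : ∀ v, v ∈ S ↔ v ∈ fl l) : S.card = 2 * l.length := by
  rw [← fl_length, ← List.toFinset_card_of_nodup a2]
  congr 1
  ext v
  rw [a3, List.mem_toFinset]

theorem Pth.compl {V : Type} [DecidableEq V] {E C : V → V → V → Prop} {x y : V} {S : Finset V}
    {r : ℝ} (h : Pth E C x y S r) : Pth E (fun x y z => ¬C x y z) x y S (S.card / 2 - r) := by
  obtain ⟨l, a1, a2, a3, a4⟩ := h
  refine ⟨l, a1, a2, a3, ?_⟩
  rw [ct_compl, a4, len_of a2 a3]
  push_cast; ring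

theorem main (a : ℝ) (ha : 0 < a) (ha1 : a ≤ 1) : ∃ δ : ℝ, 0 < δ ∧ ∃ n0 : ℝ,
    ∀ {V : Type} [Fintype V] [DecidableEq V] (E C : V → V → V → Prop) (n : ℝ), Hy E n → n0 ≤ n →
    (∀ v, (7 / 16 + a) * n ^ 2 ≤ ∑ y, ∑ z, ind (E v y z)) →
    (∀ x y z, C x y z → C y x z) → (∀ x y z, C x y z → C x z y) → Even (Fintype.card V) →
    ∀ z : V, (∃ r, Pth E C z z univ r ∧ (1 / 4 + δ) * n ≤ r) ∨
      ∃ r, Pth E (fun x y z => ¬C x y z) z z univ r ∧ (1 / 4 + δ) * n ≤ r := by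
  obtain ⟨γ, hγ, hγ1, hγ2⟩ : ∃ γ : ℝ, 0 < γ ∧ γ ≤ 1 / 10 ^ 15 ∧ γ ≤ a / 100 :=
    ⟨min _ _, by positivity, min_le_left _ _, min_le_right _ _⟩
  obtain ⟨ζ, hζ, nA, hA⟩ := stageA γ hγ hγ1
  obtain ⟨ε, hε, hε1, nT, hT⟩ := stageT a γ (min ζ γ) ha1 (by positivity) (min_le_right _ _)
    hγ1 hγ2
  obtain ⟨δ, hδ, nS, hS⟩ := stageS ε γ hε hε1 hγ hγ1
  refine ⟨min (δ / 2) (1 / 20), by positivity, max (max nA nT) (max nS (1 / γ)), ?_⟩
  intro V _ _ E C n h hn hd C1 C2 hev z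
  have hn1 : 1 ≤ n * γ := (div_le_iff₀ hγ).1 (le_of_max_le_right (le_of_max_le_right hn))
  have hn0 := h.nn
  have fin : ∀ (C R : V → V → V → Prop), (∀ a b c, R a b c → E a b c) →
      (∀ x y z, R x y z → R y x z) → (∀ x y z, R x y z → R x z y) →
      ∑ m, ∑ u, ∑ v, ind (E m u v ∧ ¬R m u v) ≤ ε * n ^ 3 → ∀ B z' r0, z ∉ B →
      (B.card : ℝ) + 1 ≤ γ * n → Pth E C z z' B r0 → ∃ r1,
      ((∀ a b c, R a b c → C a b c) → 3 / 10 * n ≤ r1) ∧
        ∀ r, Pth E C z z' B r → Pth E C z z univ (r + r1) := by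
    intro C R hR R1 R2 hε B z' r0 hz hB hr0
    have c0 : (insert z B).card = B.card + 1 := card_insert_of_notMem hz
    obtain ⟨A, z1, a1, a2, a3⟩ := hA E C n h (le_of_max_le_left (le_of_max_le_left hn))
      (insert z B) z' (by rw [c0]; push_cast; linarith)
    have c1 : (insert z B ∪ A).card = B.card + 1 + A.card := by
      rw [card_union_of_disjoint a1.symm, c0]
    obtain ⟨Y, r, b1, b2, b3, b4⟩ := hT E C R n h (le_of_max_le_right (le_of_max_le_left hn)) hd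
      hR R1 (fun x y z e => R1 _ _ _ (R2 _ _ _ (R1 _ _ _ e))) hε (insert z B ∪ A) z z1 (by simp)
      (by rw [c1]; push_cast; linarith)
    have hzY : z ∉ Y := fun e => disjoint_left.1 b1 e (by simp)
    have c2 := card_compl_add_card (insert z B ∪ A ∪ Y)
    rw [card_union_of_disjoint b1.symm] at c2
    obtain ⟨k1, e1⟩ := hr0.card
    obtain ⟨k2, e2⟩ := (a3 ∅ 0 rfl (by push_cast; positivity) (disjoint_empty_left _)).choose_spec.card
    obtain ⟨k3, e3⟩ := b3.card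
    obtain ⟨k4, e4⟩ := hev
    rw [union_empty] at e2
    rw [card_insert_of_notMem hzY] at e3
    have hU : ∀ v ∈ (insert z B ∪ A ∪ Y)ᶜ, v ≠ z ∧ v ∉ B ∧ v ∉ A ∧ v ∉ Y := fun v hv => by
      simpa [not_or] using hv
    have hU' : ∀ v, v ≠ z → v ∉ B → v ∉ A → v ∉ Y → v ∈ (insert z B ∪ A ∪ Y)ᶜ := fun v => by
      simp +contextual
    generalize (insert z B ∪ A ∪ Y)ᶜ = U at c2 hU hU'
    obtain ⟨r2, h2⟩ := a3 U (U.card / 2) (by omega) (by
      have d1 : ((U.card / 2 : ℕ) : ℝ) ≤ U.card := by exact_mod_cast Nat.div_le_self _ _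
      have d2 : (U.card : ℝ) + ((insert z B ∪ A).card + Y.card) = n := by
        rw [← h.card, ← c2]; push_cast; ring
      linarith [mul_le_mul_of_nonneg_right (min_le_left ζ γ) hn0])
      (disjoint_left.2 fun v hv => (hU v hv).2.2.1)
    refine ⟨r2 + r, fun hC => by linarith [b4 hC, h2.nonneg], fun r' h3 =>
      ((h3.trans h2 ?_).trans b3 ?_).congr ?_ (add_assoc _ _ _)⟩
    · rw [disjoint_union_right]
      exact ⟨a1.symm.mono_left (subset_insert _ _),
        disjoint_right.2 fun v hv => (hU v hv).2.1⟩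
    · rw [disjoint_insert_right]
      simp only [mem_union, not_or, disjoint_union_left]
      exact ⟨⟨hz, fun e => disjoint_left.1 a1 e (mem_insert_self _ _), fun e => (hU z e).1 rfl⟩,
        b1.symm.mono_left ((subset_insert _ _).trans subset_union_left),
        b1.symm.mono_left subset_union_right, disjoint_left.2 fun v hv => (hU v hv).2.2.2⟩
    · ext v
      have := hU' v
      simp only [mem_union, mem_insert, mem_univ]
      tauto
  have m1 := mul_le_mul_of_nonneg_right (min_le_left (δ / 2) (1 / 20)) hn0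
  have m2 := mul_le_mul_of_nonneg_right (min_le_right (δ / 2) (1 / 20)) hn0
  have one : ∀ C : V → V → V → Prop, (∀ x y z, C x y z → C y x z) → (∀ x y z, C x y z → C x z y) →
      ∑ x, ∑ y, ∑ z, ind (E x y z ∧ ¬C x y z) ≤ ε * n ^ 3 →
      ∃ r, Pth E C z z univ r ∧ (1 / 4 + min (δ / 2) (1 / 20)) * n ≤ r := by
    intro C C1 C2 h1
    obtain ⟨r, a1, a2⟩ := fin C (fun x y z => E x y z ∧ C x y z) (fun _ _ _ e => e.1)
      (fun x y z e => ⟨h.s1 _ _ _ e.1, C1 _ _ _ e.2⟩)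
      (fun x y z e => ⟨h.s2 _ _ _ e.1, C2 _ _ _ e.2⟩)
      (le_trans (sum_le_sum fun _ _ => sum_le_sum fun _ _ => sum_le_sum fun _ _ =>
        ind_mono fun e => ⟨e.1, fun e' => e.2 ⟨e.1, e'⟩⟩) h1) ∅ z 0 (notMem_empty _)
      (by rw [card_empty]; push_cast; linarith) (Pth.nil z)
    exact ⟨_, a2 0 (Pth.nil z), by linarith [a1 fun _ _ _ e => e.2]⟩
  rcases le_total (∑ x, ∑ y, ∑ z, ind (E x y z ∧ ¬C x y z)) (ε * n ^ 3) with h1 | h1
  · exact Or.inl (one C C1 C2 h1)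
  rcases le_total (∑ x, ∑ y, ∑ z, ind (E x y z ∧ C x y z)) (ε * n ^ 3) with h2 | h2
  · exact Or.inr (one _ (fun x y z => mt (C1 _ _ _)) (fun x y z => mt (C2 _ _ _))
      (by simpa only [not_not] using h2))
  obtain ⟨B, z', r, k, a1, a2, a3, a4, a5⟩ := hS E C n h
    (le_of_max_le_left (le_of_max_le_right hn)) C1 C2 h2 h1 z
  obtain ⟨r1, -, a6⟩ := fin C E (fun _ _ _ e => e) h.s1 h.s2
    (by simp only [and_not_self, ind_neg not_false, sum_const_zero]; positivity) B z' r a1 a2 a4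
  rcases le_total ((1 / 4 + δ / 2) * n) (r + k + r1) with h3 | h3
  · exact Or.inl ⟨_, a6 _ a5, by linarith⟩
  · refine Or.inr ⟨_, (a6 _ a4).compl, ?_⟩
    rw [card_univ, h.card]
    linarith

theorem deg2 {V : Type} [Fintype V] [DecidableEq V] (H : Finset (Finset V))
    (h3 : ∀ e ∈ H, e.card = 3) (v : V) :
    2 * ((H.filter (v ∈ ·)).card : ℝ) ≤ ∑ y, ∑ z, ind (({v, y, z} : Finset V) ∈ H) := by
  have h1 : ∑ p : V × V, ∑ e ∈ H.filter (v ∈ ·), ind (({v, p.1, p.2} : Finset V) = e) ≤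
      ∑ p : V × V, ind (({v, p.1, p.2} : Finset V) ∈ H) := by
    refine sum_le_sum fun p _ => ?_
    by_cases e : ({v, p.1, p.2} : Finset V) ∈ H
    · rw [ind_pos e]; exact sum_ind_eq_le _ _
    · rw [ind_neg e]
      refine (sum_eq_zero fun f hf => ind_neg fun e' => e ?_).le
      rw [e']; exact (mem_filter.1 hf).1
  rw [sum_comm, Fintype.sum_prod_type (α₁ := V)
    (f := fun p => ind (({v, p.1, p.2} : Finset V) ∈ H))] at h1
  refine le_trans ?_ h1
  rw [mul_comm, ← nsmul_eq_mul, ← sum_const]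
  refine sum_le_sum fun e he => ?_
  rw [mem_filter] at he
  obtain ⟨y, z, hyz, e1⟩ := card_eq_two.1 (show (e.erase v).card = 2 by
    rw [card_erase_of_mem he.2, h3 e he.1])
  have e2 : {v, y, z} = e := by rw [← e1, insert_erase he.2]
  refine le_trans ?_ (sum_le_sum_of_subset_of_nonneg (subset_univ {(y, z), (z, y)})
    fun _ _ _ => ind_nonneg _)
  rw [sum_pair (by simp [hyz]), ind_pos e2, ind_pos (by rw [pair_comm]; exact e2)]
  norm_num

theorem cyc {V : Type} [Fintype V] [DecidableEq V] {E C : V → V → V → Prop} {z : V} {r : ℝ}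
    (h : Pth E C z z univ r) (n : ℕ) (hn : Fintype.card V = n) : ∃ v : ZMod n → V,
      Function.Bijective v ∧
      (∀ i < n / 2, E (v (2 * i : ℕ)) (v (2 * i + 1 : ℕ)) (v (2 * i + 2 : ℕ))) ∧
      r = ∑ i ∈ range (n / 2), ind (C (v (2 * i : ℕ)) (v (2 * i + 1 : ℕ)) (v (2 * i + 2 : ℕ))) := by
  obtain ⟨l, a1, a2, a3, a4⟩ := h
  have hl := len_of a2 a3
  rw [card_univ, hn] at hl
  have hn0 : 0 < n := hn ▸ Fintype.card_pos_iff.2 ⟨z⟩
  haveI : NeZero n := ⟨hn0.ne'⟩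
  obtain ⟨d, m, b1, b2, b3, b4, b5⟩ := unroll (C := C) l z z a1
  obtain ⟨v, hv⟩ : ∃ v : ZMod n → V, ∀ j : ℕ,
      v j = if j % n % 2 = 0 then d (j % n / 2) else m (j % n / 2) :=
    ⟨fun x => if x.val % 2 = 0 then d (x.val / 2) else m (x.val / 2), fun j => by
      simp only [ZMod.val_natCast]⟩
  have e0 : n / 2 = l.length := by omega
  have e1 : ∀ i < l.length, v (2 * i : ℕ) = d i := fun i hi => by
    rw [hv, Nat.mod_eq_of_lt (show 2 * i < n by omega), if_pos (by omega)]; congr 1; omega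
  have e2 : ∀ i < l.length, v (2 * i + 1 : ℕ) = m i := fun i hi => by
    rw [hv, Nat.mod_eq_of_lt (show 2 * i + 1 < n by omega), if_neg (by omega)]; congr 1; omega
  have e3 : ∀ i < l.length, v (2 * i + 2 : ℕ) = d (i + 1) := fun i hi => by
    rcases lt_or_eq_of_le (Nat.succ_le_of_lt hi) with e | e
    · exact e1 (i + 1) e
    · rw [hv, show 2 * i + 2 = n by omega, Nat.mod_self, if_pos rfl, b1, ← b2, ← e]
  refine ⟨v, (Fintype.bijective_iff_surjective_and_card v).2 ⟨fun x => ?_, by rw [ZMod.card, hn]⟩,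
    fun i hi => ?_, ?_⟩
  · obtain ⟨i, hi, e | e⟩ := b5 x ((a3 x).1 (mem_univ x))
    exacts [⟨_, (e2 i hi).trans e.symm⟩, ⟨_, (e3 i hi).trans e.symm⟩]
  · rw [e0] at hi
    rw [e1 i hi, e2 i hi, e3 i hi]; exact b3 i hi
  · rw [← a4, b4, e0]
    exact sum_congr rfl fun i hi => by
      rw [e1 i (mem_range.1 hi), e2 i (mem_range.1 hi), e3 i (mem_range.1 hi)]

theorem edge_inj {V : Type} [DecidableEq V] {n : ℕ} (hn : Even n) {v : ZMod n → V}
    (hv : Function.Injective v) : Set.InjOn (fun i : ℕ =>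
      ({v (2 * i : ℕ), v (2 * i + 1 : ℕ), v (2 * i + 2 : ℕ)} : Finset V)) (range (n / 2)) := by
  intro i hi j hj e
  have h1 : v (2 * i + 1 : ℕ) ∈ ({v (2 * j : ℕ), v (2 * j + 1 : ℕ), v (2 * j + 2 : ℕ)} : Finset V) := by
    beta_reduce at e
    rw [← e]; simp
  simp only [mem_insert, mem_singleton, hv.eq_iff, ZMod.natCast_eq_natCast_iff] at h1
  rw [coe_range, Set.mem_Iio] at hi hj
  rcases h1 with h1 | h1 | h1
  · have := h1.of_dvd hn.two_dvd
    unfold Nat.ModEq at this; omega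
  · have := Nat.ModEq.eq_of_lt_of_lt h1 (by omega) (by omega)
    omega
  · have := h1.of_dvd hn.two_dvd
    unfold Nat.ModEq at this; omega

theorem bridge (α : ℝ) (hα : 0 < α) : ∃ δ : ℝ, 0 < δ ∧ ∃ n₀ : ℕ, ∀ n : ℕ, n₀ ≤ n → Even n →
    ∀ (H : Finset (Finset (Fin n))) (col : Finset (Fin n) → Bool), (∀ e ∈ H, e.card = 3) →
      (∀ v, (7 / 16 + α) * (n.choose 2 : ℝ) ≤ (H.filter fun e => v ∈ e).card) →
      ∃ v : ZMod n → Fin n, Function.Bijective v ∧
        (∀ i < n / 2, ({v (2 * i : ℕ), v (2 * i + 1 : ℕ), v (2 * i + 2 : ℕ)} : Finset _) ∈ H) ∧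
        ∃ b, (1 / 4 + δ) * n ≤ ((((range (n / 2)).image fun i : ℕ =>
          ({v (2 * i : ℕ), v (2 * i + 1 : ℕ), v (2 * i + 2 : ℕ)} : Finset _)).filter
            fun e => col e = b).card : ℝ) := by
  obtain ⟨a, ha, ha1, ha2⟩ : ∃ a : ℝ, 0 < a ∧ a ≤ 1 ∧ a ≤ α / 2 :=
    ⟨min _ _, by positivity, min_le_left _ _, min_le_right _ _⟩
  obtain ⟨δ, hδ, n0, h⟩ := main a ha ha1
  obtain ⟨n1, hn1⟩ := exists_nat_ge (max n0 (2 + 1 / α))
  refine ⟨δ, hδ, n1, fun n hn hev H col h3 hd => ?_⟩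
  have hn2 : max n0 (2 + 1 / α) ≤ n := hn1.trans (by exact_mod_cast hn)
  have hn3 : 2 * α + 1 ≤ n * α := by
    have := mul_le_mul_of_nonneg_right (le_of_max_le_right hn2) hα.le
    rwa [add_mul, one_div_mul_cancel hα.ne'] at this
  have hn4 : (0 : ℝ) < n := by
    by_contra e
    nlinarith
  have hd2 : ∀ v : Fin n, (7 / 16 + a) * (n : ℝ) ^ 2 ≤
      ∑ y, ∑ z, ind (({v, y, z} : Finset (Fin n)) ∈ H) := fun v => by
    have a1 := hd v
    rw [Nat.cast_choose_two] at a1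
    nlinarith [deg2 H h3 v, mul_le_mul_of_nonneg_right ha2 (sq_nonneg (n : ℝ)),
      mul_le_mul_of_nonneg_left hn3 hn4.le]
  have p1 : ∀ x y z : Fin n, ({y, x, z} : Finset (Fin n)) = {x, y, z} :=
    fun x y z => insert_comm _ _ _
  have p2 : ∀ x y z : Fin n, ({x, z, y} : Finset (Fin n)) = {x, y, z} :=
    fun x y z => by rw [pair_comm]
  have hy : Hy (fun x y z : Fin n => ({x, y, z} : Finset (Fin n)) ∈ H) n :=
    ⟨by simp, fun x y z e => by rwa [p1], fun x y z e => by rwa [p2], fun x y z e e' => by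
      have a1 := h3 _ e
      rw [e', insert_eq_of_mem (mem_insert_self _ _)] at a1
      have := card_le_two (a := y) (b := z)
      omega, fun v => by nlinarith [hd2 v, mul_nonneg ha.le (sq_nonneg (n : ℝ))]⟩
  have key : ∃ b r, Pth (fun x y z : Fin n => ({x, y, z} : Finset (Fin n)) ∈ H)
      (fun x y z => col {x, y, z} = b) ⟨0, by exact_mod_cast hn4⟩ ⟨0, by exact_mod_cast hn4⟩
      univ r ∧ (1 / 4 + δ) * n ≤ r := by
    rcases h _ (fun x y z => col {x, y, z} = true) n hy (le_of_max_le_left hn2) hd2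
      (fun x y z e => by rwa [p1]) (fun x y z e => by rwa [p2]) (by rwa [Fintype.card_fin])
      ⟨0, by exact_mod_cast hn4⟩ with h1 | h1
    · exact ⟨true, h1⟩
    · exact ⟨false, by simpa only [Bool.not_eq_true] using h1⟩
  obtain ⟨b, r, h1, h2⟩ := key
  obtain ⟨v, a1, a2, a3⟩ := cyc h1 n (Fintype.card_fin n)
  refine ⟨v, a1, a2, b, h2.trans (le_of_eq ?_)⟩
  rw [a3, sum_ind, filter_image, card_image_of_injOn
    ((edge_inj hev a1.1).mono (coe_subset.2 (filter_subset _ _)))]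

end Pool.Agent.H.MP_8a4838_co
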