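import Pool.Agent.H.MP_8a4838_co.Gen

namespace Pool.Agent.H.MP_8a4838_co

open Finset Pool.Agent.H.MP_b50c09_co Pool.Agent.H.MP_1ff796_co

variable {V : Type}

/-- Loose walk from the first vertex along (middle, next) pairs. -/
def LP (E : V → V → V → Prop) : V → List (V × V) → V → Prop
  | x, [], y => x = y
  | x, p :: l, y => E x p.1 p.2 ∧ LP E p.2 l y

noncomputable def ct (C : V → V → V → Prop) : V → List (V × V) → ℝ
  | _, [] => 0
  | x, p :: l => ind (C x p.1 p.2) + ct C p.2 l

def fl : List (V × V) → List V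
  | [] => []
  | p :: l => p.1 :: p.2 :: fl l

/-- A loose path from `x` to `y` with new vertices `S` and `r` counted edges. -/
def Pth (E C : V → V → V → Prop) (x y : V) (S : Finset V) (r : ℝ) : Prop :=
  ∃ l, LP E x l y ∧ (fl l).Nodup ∧ (∀ v, v ∈ S ↔ v ∈ fl l) ∧ ct C x l = r

variable {E C : V → V → V → Prop}

theorem fl_append (l l' : List (V × V)) : fl (l ++ l') = fl l ++ fl l' := by
  induction l with
  | nil => rfl
  | cons p l ih => simp [fl, ih]

theorem fl_length (l : List (V × V)) : (fl l).length = 2 * l.length := by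
  induction l with
  | nil => rfl
  | cons p l ih => simp [fl, ih]; ring

theorem LP_append {z : V} {l' : List (V × V)} {y : V} (h' : LP E y l' z) (l : List (V × V)) :
    ∀ x, LP E x l y → LP E x (l ++ l') z ∧ ct C x (l ++ l') = ct C x l + ct C y l' := by
  induction l with
  | nil =>
    intro x h
    cases (show x = y from h)
    exact ⟨h', by simp [ct]⟩
  | cons p l ih =>
    intro x h
    obtain ⟨a, b⟩ := ih p.2 h.2
    refine ⟨⟨h.1, a⟩, ?_⟩
    simp only [List.cons_append, ct, b, add_assoc]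

theorem Pth.nil (x : V) : Pth E C x x ∅ 0 := ⟨[], rfl, List.nodup_nil, by simp [fl], rfl⟩

theorem Pth.trans [DecidableEq V] {x y z : V} {S T : Finset V} {r r' : ℝ} (h : Pth E C x y S r)
    (h' : Pth E C y z T r') (hd : Disjoint S T) : Pth E C x z (S ∪ T) (r + r') := by
  obtain ⟨l, a1, a2, a3, a4⟩ := h
  obtain ⟨l', b1, b2, b3, b4⟩ := h'
  obtain ⟨c1, c2⟩ := LP_append (C := C) b1 l x a1
  refine ⟨l ++ l', c1, ?_, fun v => ?_, by rw [c2, a4, b4]⟩
  · rw [fl_append, List.nodup_append]
    exact ⟨a2, b2, fun u hu v hv e =>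
      disjoint_left.1 hd ((a3 u).2 hu) ((b3 u).2 (e ▸ hv))⟩
  · rw [fl_append, List.mem_append, mem_union, a3, b3]

theorem Pth.congr {x y : V} {S T : Finset V} {r r' : ℝ} (h : Pth E C x y S r) (h1 : S = T)
    (h2 : r = r') : Pth E C x y T r' := h1 ▸ h2 ▸ h

theorem Pth.cons [DecidableEq V] {x m d y : V} {S : Finset V} {r : ℝ} (he : E x m d)
    (h : Pth E C d y S r) (h1 : m ≠ d) (h2 : m ∉ S) (h3 : d ∉ S) :
    Pth E C x y (insert m (insert d S)) (ind (C x m d) + r) := by
  obtain ⟨l, a1, a2, a3, a4⟩ := h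
  refine ⟨(m, d) :: l, ⟨he, a1⟩, ?_, fun v => by simp [fl, a3], by simp [ct, a4]⟩
  simp [fl, h1, ← a3, h2, h3, a2]

theorem Pth.card [DecidableEq V] {x y : V} {S : Finset V} {r : ℝ} (h : Pth E C x y S r) :
    ∃ k, S.card = 2 * k := by
  obtain ⟨l, -, a2, a3, -⟩ := h
  refine ⟨l.length, ?_⟩
  rw [← fl_length, ← List.toFinset_card_of_nodup a2]
  congr 1
  ext v
  rw [a3, List.mem_toFinset]

theorem ct_nonneg (l : List (V × V)) : ∀ x, 0 ≤ ct C x l := by
  induction l with
  | nil => intro x; exact le_rfl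
  | cons p l ih => intro x; exact add_nonneg (ind_nonneg _) (ih _)

theorem Pth.nonneg {x y : V} {S : Finset V} {r : ℝ} (h : Pth E C x y S r) : 0 ≤ r := by
  obtain ⟨l, -, -, -, rfl⟩ := h
  exact ct_nonneg l x

/-- Connections inside `R` avoiding any small set. -/
def Orc [DecidableEq V] (E C : V → V → V → Prop) (R : Finset V) (w : ℕ) : Prop :=
  ∀ y x W, x ∉ R → W.card ≤ w → ∃ T ⊆ R, T.card ≤ 3 ∧ Disjoint T W ∧
    ∃ c, Pth E C y x (insert x T) c

theorem link [DecidableEq V] {ι : Type} [DecidableEq ι] {R : Finset V} {w : ℕ}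
    (hO : Orc E C R w) (x y : ι → V) (z : V) (I : Finset ι) : 3 * I.card ≤ w →
    (∀ i ∈ I, x i ∉ R) → ∃ D ⊆ R, D.card ≤ 3 * I.card ∧ ∃ z' c0, 0 ≤ c0 ∧
      ∀ (S : ι → Finset V) (r : ι → ℝ),
      (∀ i ∈ I, Pth E C (x i) (y i) (S i) (r i) ∧ x i ∉ S i ∧ Disjoint (S i) D) →
      PD (fun i => insert (x i) (S i)) I →
      Pth E C z z' (D ∪ I.biUnion fun i => insert (x i) (S i)) (c0 + ∑ i ∈ I, r i) := by
  induction I using Finset.induction_on with
  | empty =>
    intro _ _
    exact ⟨∅, empty_subset _, by simp, z, 0, le_rfl, fun S r _ _ => by simpa using Pth.nil z⟩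
  | insert i I hi ih =>
    intro h1 h2
    rw [card_insert_of_notMem hi] at h1 ⊢
    obtain ⟨D, hD1, hD2, z', c0, hc0, h3⟩ := ih (by omega) fun j hj => h2 j (mem_insert_of_mem hj)
    obtain ⟨T, hT1, hT2, hT3, c, hT4⟩ := hO z' (x i) D (h2 i (mem_insert_self _ _)) (by omega)
    refine ⟨D ∪ T, union_subset hD1 hT1, by have := card_union_le D T; omega, y i, c0 + c,
      add_nonneg hc0 hT4.nonneg, fun S r h4 h5 => ?_⟩
    obtain ⟨b1, b2, b3⟩ := h4 i (mem_insert_self _ _)
    have a1 := h3 S r (fun j hj => by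
      obtain ⟨c1, c2, c3⟩ := h4 j (mem_insert_of_mem hj)
      exact ⟨c1, c2, c3.mono_right subset_union_left⟩)
      fun j hj k hk => h5 j (mem_insert_of_mem hj) k (mem_insert_of_mem hk)
    have a2 : ∀ j ∈ I, ∀ v ∈ insert (x j) (S j), v ∉ insert (x i) (S i) ∧ v ∉ T := by
      intro j hj v hv
      refine ⟨disjoint_left.1 (h5 j (mem_insert_of_mem hj) i (mem_insert_self _ _)
        fun e => hi (e ▸ hj)) hv, fun hvT => ?_⟩
      rcases mem_insert.1 hv with rfl | hv
      · exact h2 j (mem_insert_of_mem hj) (hT1 hvT)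
      · exact disjoint_left.1 (h4 j (mem_insert_of_mem hj)).2.2 hv (mem_union_right _ hvT)
    have a3 := hT4.trans b1 (by
      rw [disjoint_insert_left]
      exact ⟨b2, (b3.mono_right subset_union_right).symm⟩)
    refine (a1.trans a3 ?_).congr ?_ ?_
    · rw [disjoint_left]
      intro v hv hv'
      simp only [mem_union, mem_insert] at hv'
      rcases mem_union.1 hv with hv | hv
      · rcases hv' with (rfl | hv') | hv'
        · exact h2 i (mem_insert_self _ _) (hD1 hv)
        · exact disjoint_left.1 hT3 hv' hv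
        · exact disjoint_left.1 b3 hv' (mem_union_left _ hv)
      · obtain ⟨j, hj, hv⟩ := mem_biUnion.1 hv
        obtain ⟨c1, c2⟩ := a2 j hj v hv
        rcases hv' with (rfl | hv') | hv'
        · exact c1 (mem_insert_self _ _)
        · exact c2 hv'
        · exact c1 (mem_insert_of_mem hv')
    · rw [biUnion_insert]
      ext v
      simp only [mem_union, mem_insert]
      tauto
    · rw [sum_insert hi]; ring

theorem blockPath [DecidableEq V] (R : V → V → V → Prop) (hR : ∀ a b c, R a b c → E a b c)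
    (hs : ∀ a b c, R a b c → R c b a) (j : ℕ) : ∀ (A B M : Finset V) (x : V), x ∈ A →
    Disjoint A B → Disjoint A M → Disjoint B M → (∀ a ∈ A, ∀ m ∈ M, ∀ b ∈ B, R a m b) →
    j + 2 ≤ 2 * A.card → j + 1 ≤ 2 * B.card → j ≤ M.card →
    ∃ y S r, S ⊆ A ∪ B ∪ M ∧ x ∉ S ∧ S.card = 2 * j ∧ Pth E C x y S r ∧
      ((∀ a b c, R a b c → C a b c) → r = j) := by
  induction j with
  | zero =>
    intro A B M x _ _ _ _ _ _ _ _
    exact ⟨x, ∅, 0, empty_subset _, notMem_empty _, rfl, Pth.nil x, fun _ => by simp⟩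
  | succ j ih =>
    intro A B M x hx d1 d2 d3 h h1 h2 h3
    obtain ⟨b, hb⟩ := card_pos.1 (show 0 < B.card by omega)
    obtain ⟨m, hm⟩ := card_pos.1 (show 0 < M.card by omega)
    obtain ⟨y, S, r, a1, a2, a3, a4, a5⟩ := ih B (A.erase x) (M.erase m) b hb
      (d1.symm.mono_right (erase_subset _ _)) (d3.mono_right (erase_subset _ _))
      (d2.mono (erase_subset _ _) (erase_subset _ _))
      (fun a ha n hn c hc => hs _ _ _ (h c (mem_of_mem_erase hc) n (mem_of_mem_erase hn) a ha))
      (by omega) (by rw [card_erase_of_mem hx]; omega) (by rw [card_erase_of_mem hm]; omega)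
    have hmb : m ≠ b := fun e => disjoint_left.1 d3 hb (e ▸ hm)
    have hmS : m ∉ S := fun e => by
      have := a1 e
      simp only [mem_union, mem_erase] at this
      rcases this with (h' | h') | h'
      · exact disjoint_left.1 d3 h' hm
      · exact disjoint_left.1 d2 h'.2 hm
      · exact h'.1 rfl
    refine ⟨y, insert m (insert b S), _, ?_, ?_, ?_,
      Pth.cons (hR _ _ _ (h x hx m hm b hb)) a4 hmb hmS a2, fun hC => ?_⟩
    · intro v hv
      simp only [mem_insert, mem_union] at hv ⊢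
      rcases hv with rfl | rfl | hv
      · exact Or.inr hm
      · exact Or.inl (Or.inr hb)
      · have := a1 hv
        simp only [mem_union, mem_erase] at this
        tauto
    · simp only [mem_insert, not_or]
      refine ⟨fun e => disjoint_left.1 d2 hx (e ▸ hm), fun e => disjoint_left.1 d1 hx (e ▸ hb),
        fun e => ?_⟩
      have := a1 e
      simp only [mem_union, mem_erase] at this
      rcases this with (h' | h') | h'
      · exact disjoint_left.1 d1 hx h'
      · exact h'.1 rfl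
      · exact disjoint_left.1 d2 hx h'.2
    · rw [card_insert_of_notMem (by simp [hmb, hmS]), card_insert_of_notMem a2, a3]; ring
    · rw [ind_pos (hC _ _ _ (h x hx m hm b hb)), a5 hC]; push_cast; ring

theorem assign [DecidableEq V] {Γ : Type} [DecidableEq Γ] (good : V × V → Γ → Prop) (k : ℕ) :
    ∀ (F : Finset Γ) (U : Finset V), U.card = 2 * k → (∀ t, k ≤ cF good F t) →
    ∃ X : Γ → Finset V, F.biUnion X = U ∧ PD X F ∧
      ∀ g, X g = ∅ ∨ ∃ a b, a ≠ b ∧ X g = {a, b} ∧ good (a, b) g := by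
  classical
  induction k with
  | zero =>
    intro F U hU _
    exact ⟨fun _ => ∅, by rw [card_eq_zero.1 hU]; ext; simp, by simp [PD], fun _ => Or.inl rfl⟩
  | succ k ih =>
    intro F U hU h
    obtain ⟨a, ha, b, hb, hab⟩ := one_lt_card.1 (show 1 < U.card by omega)
    obtain ⟨g, hg⟩ := card_pos.1 (lt_of_lt_of_le (Nat.succ_pos k) (h (a, b)))
    rw [mem_filter] at hg
    have hsub : ({a, b} : Finset V) ⊆ U := by simp [insert_subset_iff, ha, hb]
    obtain ⟨X, h1, h2, h3⟩ := ih (F.erase g) (U \ {a, b})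
      (by rw [card_sdiff_of_subset hsub, card_pair hab]; omega) (fun t => by
        have a1 := h t
        have a2 := pred_card_le_card_erase (s := F.filter (good t)) (a := g)
        unfold cF at a1 ⊢
        rw [filter_erase]
        omega)
    have h4 : ∀ g' ∈ F, g' ≠ g → X g' ⊆ U \ {a, b} := fun g' hg' hne =>
      h1 ▸ subset_biUnion_of_mem X (mem_erase.2 ⟨hne, hg'⟩)
    refine ⟨Function.update X g {a, b}, ?_, fun p hp q hq hpq => ?_, fun p => ?_⟩
    · rw [← insert_erase hg.1, biUnion_insert, Function.update_self,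
        biUnion_congr rfl fun p hp => Function.update_of_ne (mem_erase.1 hp).1 _ _, h1,
        union_sdiff_of_subset hsub]
    · by_cases e1 : p = g <;> by_cases e2 : q = g
      · exact absurd (e1.trans e2.symm) hpq
      · rw [e1, Function.update_self, Function.update_of_ne e2]
        exact disjoint_sdiff.mono_right (h4 q hq e2)
      · rw [e2, Function.update_self, Function.update_of_ne e1]
        exact (disjoint_sdiff.mono_right (h4 p hp e1)).symm
      · rw [Function.update_of_ne e1, Function.update_of_ne e2]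
        exact h2 p (mem_erase.2 ⟨e1, hp⟩) q (mem_erase.2 ⟨e2, hq⟩) hpq
    · by_cases e1 : p = g
      · rw [e1, Function.update_self]; exact Or.inr ⟨a, b, hab, rfl, hg.2⟩
      · rw [Function.update_of_ne e1]; exact h3 p

theorem unroll (l : List (V × V)) : ∀ x y, LP E x l y → ∃ d m : ℕ → V, d 0 = x ∧
    d l.length = y ∧ (∀ i < l.length, E (d i) (m i) (d (i + 1))) ∧
    ct C x l = ∑ i ∈ range l.length, ind (C (d i) (m i) (d (i + 1))) ∧
    ∀ v ∈ fl l, ∃ i < l.length, v = m i ∨ v = d (i + 1) := by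
  induction l with
  | nil => intro x y h; exact ⟨fun _ => x, fun _ => x, rfl, h, by simp, by simp [ct], by simp [fl]⟩
  | cons p l ih =>
    intro x y h
    obtain ⟨d, m, a1, a2, a3, a4, a5⟩ := ih p.2 y h.2
    refine ⟨fun i => Nat.casesOn i x d, fun i => Nat.casesOn i p.1 m, rfl, a2, fun i hi => ?_,
      ?_, fun v hv => ?_⟩
    · rcases i with _ | i
      · show E x p.1 (d 0)
        rw [a1]; exact h.1
      · exact a3 i (by simpa using hi)
    · rw [List.length_cons, sum_range_succ', ct, a4, add_comm, ← a1]; rfl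
    · simp only [fl, List.mem_cons] at hv
      rcases hv with rfl | rfl | hv
      · exact ⟨0, by simp, Or.inl rfl⟩
      · exact ⟨0, by simp, Or.inr a1.symm⟩
      · obtain ⟨i, hi, h'⟩ := a5 v hv
        exact ⟨i + 1, by simpa using hi, h'⟩

end Pool.Agent.H.MP_8a4838_co
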