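import Pool.Agent.H.MP_8a4838_co.Cnt

namespace Pool.Agent.H.MP_8a4838_co

open Finset Pool.Agent.H.MP_b50c09_co Pool.Agent.H.MP_1ff796_co

variable {V : Type} [DecidableEq V] {E C : V → V → V → Prop} {n : ℝ}

def tri (g : Fin 3 → V) : Finset V := {g 0, g 1, g 2}

def tl (g : Fin 7 → V) : Finset V := {g 0, g 1, g 2, g 3, g 4, g 5}

def s7 (g : Fin 7 → V) : Finset V := insert (g 6) (tl g)

theorem cn_path {x y : V} {g : Fin 3 → V} (h1 : Cn E (y, x) g) (h2 : Function.Injective g)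
    (h3 : x ∉ tri g) : ∃ c, Pth E C y x (insert x (tri g)) c := by
  simp only [tri, mem_insert, mem_singleton, not_or] at h3
  refine ⟨_, [(g 1, g 0), (g 2, x)], ⟨h1.1, h1.2, rfl⟩, ?_, fun v => ?_, rfl⟩
  · simp [fl, h2.eq_iff, Ne.symm h3.1, Ne.symm h3.2.1, Ne.symm h3.2.2]
  · simp only [fl, tri, mem_insert, mem_singleton, List.mem_cons, List.not_mem_nil]
    tauto

theorem avoid {Γ : Type} {sup : Γ → Finset V} {F G : Finset Γ} (hF : PD sup F) (hG : G ⊆ F)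
    (W : Finset V) (h : W.card < G.card) : ∃ g ∈ G, Disjoint (sup g) W := by
  by_contra h1
  push Not at h1
  have a1 : (G.biUnion fun g => sup g ∩ W).card = ∑ g ∈ G, (sup g ∩ W).card :=
    card_biUnion fun a ha b hb hne =>
      (hF a (hG ha) b (hG hb) hne).mono inter_subset_left inter_subset_left
  have a2 : G.card ≤ ∑ g ∈ G, (sup g ∩ W).card := by
    rw [card_eq_sum_ones]
    exact sum_le_sum fun g hg => card_pos.2 (not_disjoint_iff_nonempty_inter.1 (h1 g hg))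
  have a3 := card_le_card (biUnion_subset.2 fun g (_ : g ∈ G) =>
    (inter_subset_right : sup g ∩ W ⊆ W))
  omega

theorem orc2 (F : Finset (Fin 3 → V)) (h1 : ∀ g ∈ F, Function.Injective g) (h2 : PD tri F) (w : ℕ)
    (h3 : ∀ t, w < cF (Cn E) F t) : Orc E C (F.biUnion tri) w := by
  classical
  intro y x W hx hW
  have h4 := h3 (y, x)
  unfold cF at h4
  obtain ⟨g, hg, hd⟩ := avoid h2 (filter_subset _ F) W (hW.trans_lt h4)
  rw [mem_filter] at hg
  exact ⟨tri g, subset_biUnion_of_mem tri hg.1, card_le_three, hd,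
    cn_path hg.2 (h1 g hg.1) fun e => hx (subset_biUnion_of_mem tri hg.1 e)⟩

theorem ab0 (h : ∀ x y z, E x y z → E x z y) {g : Fin 7 → V} (h1 : Sk E g)
    (h2 : Function.Injective g) : ∃ r, Pth E C (g 6) (g 4) (tl g) r := by
  refine ⟨_, [(g 5, g 3), (g 0, g 2), (g 1, g 4)], ⟨h1.1, h1.2.1, h1.2.2, rfl⟩, ?_,
    fun v => ?_, rfl⟩
  · simp [fl, h2.eq_iff]
  · simp only [fl, tl, mem_insert, mem_singleton, List.mem_cons, List.not_mem_nil]
    tauto

variable [Fintype V]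

theorem ab1 (h : Hy E n) {g : Fin 7 → V} (h1 : Sk E g) (h2 : Function.Injective g) {x y : V}
    (h3 : Ab1 E x y g) (h4 : x ≠ y) (h5 : x ∉ tl g) (h6 : y ∉ tl g) :
    ∃ r, Pth E C (g 6) (g 4) (tl g ∪ {x, y}) r := by
  simp only [tl, mem_insert, mem_singleton, not_or] at h5 h6
  obtain ⟨a0, a1, a2, a3, a4, a5⟩ := h5
  obtain ⟨b0, b1, b2, b3, b4, b5⟩ := h6
  refine ⟨_, [(g 3, g 5), (x, g 0), (y, g 1), (g 2, g 4)], ⟨h.s2 _ _ _ h1.1, h3.1, h3.2,
    h.s1 _ _ _ h1.2.2, rfl⟩, ?_, fun v => ?_, rfl⟩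
  · simp [fl, h2.eq_iff, h4, a0, a1, a2, a4, b1, b2, b4, Ne.symm a3, Ne.symm a5, Ne.symm b0,
      Ne.symm b3, Ne.symm b5]
  · simp only [fl, tl, mem_union, mem_insert, mem_singleton, List.mem_cons, List.not_mem_nil]
    tauto

theorem Hy.clean (h : Hy E n) (hn : 0 < n) {k : ℕ} (r : (Fin k → V) → Prop) (b : ℝ)
    (h1 : b * n ^ k ≤ ∑ g, ind (r g)) (W : Finset V) (h2 : (k : ℝ) ^ 2 + k * W.card ≤ b / 2 * n) :
    b / 2 * n ^ k ≤ ∑ g, ind (r g ∧ Function.Injective g ∧ ∀ i, g i ∉ W) := by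
  have a1 := cleanK n h.card W r
  have a2 := mul_le_mul_of_nonneg_right h2 (show 0 ≤ n ^ k by positivity)
  have a3 := mul_le_mul_of_nonneg_left h1 hn.le
  refine le_of_mul_le_mul_left ?_ hn
  linarith

theorem Hy.orc (h : Hy E n) (hn : 10 ^ 7 ≤ n) (Z : Finset V) (w : ℕ)
    (hZ : (Z.card : ℝ) + w ≤ n / 10 ^ 7) : Orc E C Zᶜ w := by
  intro y x W hx hW
  have h1 := h.clean (by linarith) _ _ (h.conn (y, x)) (Z ∪ W) (by
    have a1 : ((Z ∪ W).card : ℝ) ≤ Z.card + W.card := by exact_mod_cast card_union_le Z W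
    have a2 : (W.card : ℝ) ≤ w := by exact_mod_cast hW
    push_cast
    linarith)
  have h0 : 0 < n := by linarith
  obtain ⟨g, -, hg⟩ := exists_ne_zero_of_sum_ne_zero (lt_of_lt_of_le (by positivity) h1).ne'
  obtain ⟨a1, a2, a3⟩ := of_ind_ne_zero hg
  simp only [mem_union, not_or] at a3
  have a4 : tri g ⊆ Zᶜ := by simp [tri, insert_subset_iff, a3]
  exact ⟨tri g, a4, card_le_three, by simp [tri, a3], cn_path a1 a2 fun e => hx (a4 e)⟩

theorem card_s7 (g : Fin 7 → V) : (s7 g).card ≤ 7 :=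
  (card_insert_le _ _).trans (Nat.succ_le_succ card_le_six)

theorem stageA (γ : ℝ) (hγ : 0 < γ) (hγ1 : γ ≤ 1 / 10 ^ 15) : ∃ ζ : ℝ, 0 < ζ ∧ ∃ n0 : ℝ,
    ∀ {V : Type} [Fintype V] [DecidableEq V] (E C : V → V → V → Prop) (n : ℝ), Hy E n → n0 ≤ n →
    ∀ (W0 : Finset V) (z : V), (W0.card : ℝ) ≤ γ * n → ∃ A z', Disjoint A W0 ∧
      (A.card : ℝ) ≤ 2 * γ * n ∧ ∀ (U : Finset V) (k : ℕ), U.card = 2 * k → k ≤ ζ * n →
        Disjoint U A → ∃ r, Pth E C z z' (A ∪ U) r := by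
  obtain ⟨ζ, hζ, n0, h0⟩ := family 7 2 (by norm_num) (5 / 10 ^ 13 / 2) γ (by norm_num)
    (by norm_num) hγ
  refine ⟨ζ, hζ, max n0 (10 ^ 15), ?_⟩
  intro V _ _ E C n h hn W0 z hW0
  have hn1 : 10 ^ 15 ≤ n := le_of_max_le_right hn
  have hn0 : 0 < n := by linarith
  have hγn : γ * n ≤ 1 / 10 ^ 15 * n := mul_le_mul_of_nonneg_right hγ1 hn0.le
  haveI : Nonempty V := ⟨z⟩
  obtain ⟨F, hF0, hF, hFc, hF2⟩ := h0 (V := V) (τ := V × V) n (le_of_max_le_left hn)
    (by rw [Fintype.card_prod, Nat.cast_mul, h.card, sq]) s7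
    (fun g => Sk E g ∧ Function.Injective g ∧ ∀ i, g i ∉ W0) (Ab E)
    (fun g _ => ⟨insert_nonempty _ _, card_s7 g⟩) (fun W hW t => by
      have h1 := h.clean hn0 _ _ (h.abs t) (W0 ∪ W) (by
        have a1 : ((W0 ∪ W).card : ℝ) ≤ W0.card + W.card := by exact_mod_cast card_union_le W0 W
        push_cast
        linarith)
      rw [Fintype.card_fun, Fintype.card_fin, Nat.cast_pow, h.card]
      refine h1.trans (sum_le_sum fun g _ => ind_mono fun ⟨a1, a2, a3⟩ => ?_)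
      simp only [mem_union, not_or] at a3
      exact ⟨⟨a1.1, a2, fun i => (a3 i).1⟩, by simp [s7, tl, a3], a1.2⟩)
  have hc : ((F.biUnion s7).card : ℝ) ≤ 7 * F.card := by
    exact_mod_cast card_bU s7 F 7 fun g _ => card_s7 g
  push_cast at hFc
  have hO := h.orc (C := C) (by linarith) (W0 ∪ F.biUnion s7) (3 * F.card) (by
    have a1 : ((W0 ∪ F.biUnion s7).card : ℝ) ≤ W0.card + (F.biUnion s7).card := by
      exact_mod_cast card_union_le _ _
    push_cast
    linarith)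
  obtain ⟨D, hD1, hD2, z', c0, -, h1⟩ := link hO (fun g => g 6) (fun g => g 4) z F le_rfl
    fun g hg => notMem_compl.2 (mem_union_right _
      (subset_biUnion_of_mem s7 hg (mem_insert_self _ _)))
  have hD3 : Disjoint D (W0 ∪ F.biUnion s7) := disjoint_compl_left.mono_left hD1
  refine ⟨D ∪ F.biUnion s7, z', ?_, ?_, fun U k hU hk hd => ?_⟩
  · rw [disjoint_union_left, disjoint_biUnion_left]
    exact ⟨hD3.mono_right subset_union_left, fun g hg => by simp [s7, tl, (hF0 g hg).2.2]⟩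
  · have a1 : ((D ∪ F.biUnion s7).card : ℝ) ≤ D.card + (F.biUnion s7).card := by
      exact_mod_cast card_union_le _ _
    have a2 : (D.card : ℝ) ≤ 3 * F.card := by exact_mod_cast hD2
    linarith
  obtain ⟨X, hX1, hX2, hX3⟩ := assign (Ab E) k F U hU fun t => by
    exact_mod_cast hk.trans (hF2 t)
  have hXU : ∀ g ∈ F, X g ⊆ U := fun g hg => hX1 ▸ subset_biUnion_of_mem X hg
  have hXs : ∀ g ∈ F, ∀ g' ∈ F, Disjoint (X g) (s7 g') := fun g hg g' hg' =>
    hd.mono (hXU g hg) ((subset_biUnion_of_mem s7 hg').trans subset_union_right)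
  have h2 : ∀ g ∈ F, ∃ r, Pth E C (g 6) (g 4) (tl g ∪ X g) r := by
    intro g hg
    obtain ⟨a1, a2, -⟩ := hF0 g hg
    rcases hX3 g with e | ⟨a, b, hab, e, h3⟩
    · rw [e, union_empty]; exact ab0 h.s2 a1 a2
    have a3 := disjoint_left.1 ((hXs g hg g hg).mono_right (subset_insert _ _))
    rw [e] at a3 ⊢
    rcases h3 with h3 | h3
    · exact ab1 h a1 a2 h3 hab (a3 (by simp)) (a3 (by simp))
    · rw [pair_comm]; exact ab1 h a1 a2 h3 hab.symm (a3 (by simp)) (a3 (by simp))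
  choose! r hr using h2
  have h3 : ∀ g, insert (g 6) (tl g ∪ X g) = s7 g ∪ X g := fun g => by rw [s7, insert_union]
  refine ⟨_, (h1 (fun g => tl g ∪ X g) r (fun g hg => ⟨hr g hg, ?_, ?_⟩) ?_).congr ?_ rfl⟩
  · rw [mem_union, not_or]
    exact ⟨by simp [tl, (hF0 g hg).2.1.eq_iff],
      fun e => disjoint_left.1 (hXs g hg g hg) e (mem_insert_self _ _)⟩
  · rw [disjoint_union_left]
    exact ⟨hD3.symm.mono_left ((subset_insert _ _).trans
      ((subset_biUnion_of_mem s7 hg).trans subset_union_right)),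
      hd.mono (hXU g hg) subset_union_left⟩
  · intro g hg g' hg' hne
    simp only [h3, disjoint_union_left, disjoint_union_right]
    exact ⟨⟨hF g hg g' hg' hne, hXs g hg g' hg'⟩, (hXs g' hg' g hg).symm, hX2 g hg g' hg' hne⟩
  · simp only [h3]
    rw [biUnion_union, hX1, union_assoc]

end Pool.Agent.H.MP_8a4838_co
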