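import Pool.Agent.H.MP_8a4838_co.StA
import Pool.Agent.H.MP_8a4838_co.Frac

namespace Pool.Agent.H.MP_8a4838_co

open Finset Pool.Agent.H.MP_b50c09_co Pool.Agent.H.MP_1ff796_co

variable {V : Type} [DecidableEq V] {E C : V → V → V → Prop} {n : ℝ}

theorem blk (R : V → V → V → Prop) (hR : ∀ a b c, R a b c → E a b c)
    (hs : ∀ a b c, R a b c → R c b a) {s : ℕ} {b : B4 V} (hb : Bk (ER R) (s + 1) b) :
    ∃ x y S r, insert x S ⊆ sp b ∧ x ∉ S ∧ S.card = 4 * s ∧ Pth E C x y S r ∧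
      ((∀ a b c, R a b c → C a b c) → r = 2 * s) := by
  obtain ⟨h1, h2, c, h3⟩ := hb
  have hne : ∀ i, (b i).Nonempty := fun i => card_pos.1 (by rw [h1]; omega)
  obtain ⟨x, hx⟩ := hne 0
  obtain ⟨y, S, r, a1, a2, a3, a4, a5⟩ := blockPath (C := C) R hR hs (2 * s) (b 0) (b 1)
    (b 2 ∪ b 3) x hx (h2 _ _ (by decide))
    (disjoint_union_right.2 ⟨h2 _ _ (by decide), h2 _ _ (by decide)⟩)
    (disjoint_union_right.2 ⟨h2 _ _ (by decide), h2 _ _ (by decide)⟩)
    (fun a ha m hm d hd => by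
      obtain ⟨p, hp⟩ := hne 2
      obtain ⟨q, hq⟩ := hne 3
      rcases mem_union.1 hm with hm | hm
      · exact (h3 a ha d hd m hm q hq).1
      · exact (h3 a ha d hd p hp m hm).2)
    (by rw [h1]; omega) (by rw [h1]; omega)
    (by rw [card_union_of_disjoint (h2 _ _ (by decide)), h1, h1]; omega)
  refine ⟨x, y, S, r, insert_subset (sub_sp b 0 hx) (a1.trans ?_), a2, by omega, a4,
    fun hC => by rw [a5 hC]; push_cast; ring⟩
  exact union_subset (union_subset (sub_sp b 0) (sub_sp b 1))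
    (union_subset (sub_sp b 2) (sub_sp b 3))

theorem stageT (a γ ζ : ℝ) (ha1 : a ≤ 1) (hζ : 0 < ζ) (hζ1 : ζ ≤ γ) (hγ1 : γ ≤ 1 / 10 ^ 15)
    (hγ2 : γ ≤ a / 100) : ∃ ε : ℝ, 0 < ε ∧ ε ≤ 1 ∧ ∃ n0 : ℝ,
    ∀ {V : Type} [Fintype V] [DecidableEq V] (E C R : V → V → V → Prop) (n : ℝ), Hy E n → n0 ≤ n →
    (∀ v, (7 / 16 + a) * n ^ 2 ≤ ∑ y, ∑ z, ind (E v y z)) → (∀ a b c, R a b c → E a b c) →
    (∀ x y z, R x y z → R y x z) → (∀ x y z, R x y z → R z y x) →
    ∑ m, ∑ u, ∑ v, ind (E m u v ∧ ¬R m u v) ≤ ε * n ^ 3 →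
    ∀ (W : Finset V) (z z' : V), z ∈ W → (W.card : ℝ) ≤ 3 * γ * n → ∃ Y r, Disjoint Y W ∧
      n - W.card - Y.card ≤ ζ * n ∧ Pth E C z' z (insert z Y) r ∧
      ((∀ a b c, R a b c → C a b c) → 3 / 10 * n ≤ r) := by
  have ha : 0 < a := by linarith
  obtain ⟨ξ, hξ, n0, h0⟩ := family 3 2 (by norm_num) (7 / 10 ^ 6 / 2) (ζ / 3) (by norm_num)
    (by norm_num) (by positivity)
  obtain ⟨s, hs⟩ := exists_nat_ge (1 / ξ + 3 / ζ)
  have hs1 : 1 ≤ s * ξ := by
    rw [← div_le_iff₀ hξ]; linarith [show 0 < 3 / ζ by positivity]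
  have hs2 : 3 ≤ s * ζ := by
    rw [← div_le_iff₀ hζ]; linarith [show 0 < 1 / ξ by positivity]
  obtain ⟨n1, h1⟩ := tile a (ζ / 174) ha ha1 (by positivity) (by linarith) (s + 1) (by omega)
  refine ⟨a * (ζ / 174) / 24, by positivity, by nlinarith, max (max n0 n1) (10 ^ 15), ?_⟩
  intro V _ _ E C R n h hn hd hR hR1 hR3 hε W z z' hz hW
  have hn1 : 10 ^ 15 ≤ n := le_of_max_le_right hn
  have hn0 : 0 < n := by linarith
  have hγn : γ * n ≤ 1 / 10 ^ 15 * n := mul_le_mul_of_nonneg_right hγ1 hn0.le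
  have hγn2 : γ * n ≤ a / 100 * n := mul_le_mul_of_nonneg_right hγ2 hn0.le
  have hζn : ζ * n ≤ γ * n := mul_le_mul_of_nonneg_right hζ1 hn0.le
  have hζ0 : 0 < ζ * n := by positivity
  haveI : Nonempty V := ⟨z⟩
  obtain ⟨F, hF0, hF, hFc, hF2⟩ := h0 (V := V) (τ := V × V) n
    (le_of_max_le_left (le_of_max_le_left hn))
    (by rw [Fintype.card_prod, Nat.cast_mul, h.card, sq]) tri
    (fun g => Function.Injective g ∧ ∀ i, g i ∉ W) (Cn E)
    (fun g _ => ⟨insert_nonempty _ _, card_le_three⟩) (fun W' hW' t => by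
      have h1 := h.clean hn0 _ _ (h.conn t) (W ∪ W') (by
        have a1 : ((W ∪ W').card : ℝ) ≤ W.card + W'.card := by exact_mod_cast card_union_le W W'
        push_cast
        linarith)
      rw [Fintype.card_fun, Fintype.card_fin, Nat.cast_pow, h.card]
      refine h1.trans (sum_le_sum fun g _ => ind_mono fun ⟨a1, a2, a3⟩ => ?_)
      simp only [mem_union, not_or] at a3
      exact ⟨⟨a2, fun i => (a3 i).1⟩, by simp [tri, a3], a1⟩)
  have hc : ((F.biUnion tri).card : ℝ) ≤ 3 * F.card := by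
    exact_mod_cast card_bU tri F 3 fun g _ => card_le_three
  push_cast at hFc
  have hRW : Disjoint (F.biUnion tri) W := by
    rw [disjoint_biUnion_left]
    exact fun g hg => by simp [tri, (hF0 g hg).2]
  generalize hZ : F.biUnion tri = Z at hc hRW
  have hP : (((W ∪ Z)ᶜ.card : ℕ) : ℝ) + W.card + Z.card = n := by
    rw [← h.card, ← card_compl_add_card (W ∪ Z), card_union_of_disjoint hRW.symm]
    push_cast; ring
  obtain ⟨X, hX1, ⟨G, hG, rfl⟩, hX3⟩ := h1 E R (W ∪ Z)ᶜ n h hn0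
    (le_of_max_le_right (le_of_max_le_left hn)) hd hR1 hε (by linarith)
  have hGc : ((cv G).card : ℝ) = 4 * (s + 1) * G.card := by rw [hG.card_cv]; push_cast; ring
  have hGn : ((cv G).card : ℝ) ≤ n := by rw [← h.card]; exact_mod_cast card_le_univ _
  have hG0 : (0 : ℝ) ≤ G.card := by positivity
  have hO : Orc E C Z (3 * G.card) := hZ ▸ orc2 F (fun g hg => (hF0 g hg).1) hF _ fun t => by
    have a1 : ((3 * G.card : ℕ) : ℝ) < ξ * n := by
      push_cast
      nlinarith [mul_le_mul_of_nonneg_left hGn hξ.le, mul_le_mul_of_nonneg_right hs1 hG0,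
        mul_pos hξ hn0, mul_nonneg hξ.le hG0]
    exact_mod_cast a1.trans_le (hF2 t)
  have hG4 : 12 * (G.card : ℝ) ≤ ζ * n := by
    nlinarith [mul_le_mul_of_nonneg_left hGn hζ.le, mul_le_mul_of_nonneg_right hs2 hG0,
      mul_nonneg hζ.le hG0]
  choose! x y S r b1 b2 b3 b4 b5 using fun b (hb : b ∈ G) => blk (C := C) R hR hR3 (hG.1 b hb)
  have hsub : ∀ b ∈ G, Disjoint (insert (x b) (S b)) (W ∪ Z) := fun b hb =>
    disjoint_compl_left.mono_left ((b1 b hb).trans ((sp_sub_cv hb).trans hX1))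
  obtain ⟨D, hD1, hD2, z1, c0, hc0, h2⟩ := link hO x y z' G le_rfl fun b hb e =>
    disjoint_left.1 (hsub b hb) (mem_insert_self _ _) (mem_union_right _ e)
  have hPD : PD (fun b => insert (x b) (S b)) G := fun b hb b' hb' hne =>
    (hG.2 b hb b' hb' hne).mono (b1 b hb) (b1 b' hb')
  have h3 := h2 S r (fun b hb => ⟨b4 b hb, b2 b hb,
    (hsub b hb).mono (subset_insert _ _) (hD1.trans subset_union_right)⟩) hPD
  obtain ⟨T, hT1, -, hT3, c, hT4⟩ := hO z1 z D (fun e => disjoint_left.1 hRW e hz) hD2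
  have hB : Disjoint (G.biUnion fun b => insert (x b) (S b)) (W ∪ Z) :=
    (disjoint_biUnion_left _ _ _).2 hsub
  have hBc : (((G.biUnion fun b => insert (x b) (S b)).card : ℕ) : ℝ) = G.card * (4 * s + 1) := by
    rw [card_biUnion fun b hb b' hb' hne => hPD b hb b' hb' hne,
      sum_congr rfl fun b hb => (by rw [card_insert_of_notMem (b2 b hb), b3 b hb] :
        (insert (x b) (S b)).card = 4 * s + 1), sum_const, smul_eq_mul]
    push_cast; ring
  generalize (G.biUnion fun b => insert (x b) (S b)) = B at h3 hB hBc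
  refine ⟨D ∪ B ∪ T, _, ?_, ?_, (h3.trans hT4 ?_).congr (union_insert _ _ _) rfl, fun hC => ?_⟩
  · simp only [disjoint_union_left]
    exact ⟨⟨hRW.mono_left hD1, hB.mono_right subset_union_left⟩, hRW.mono_left hT1⟩
  · have a1 : (B.card : ℝ) ≤ (D ∪ B ∪ T).card := by
      exact_mod_cast card_le_card (subset_union_right.trans subset_union_left)
    linarith
  · rw [disjoint_insert_right, mem_union, not_or, disjoint_union_left]
    exact ⟨⟨fun e => disjoint_left.1 hRW (hD1 e) hz,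
      fun e => disjoint_left.1 hB e (mem_union_left _ hz)⟩, hT3.symm,
      hB.mono_right (hT1.trans subset_union_right)⟩
  · rw [sum_congr rfl fun b hb => b5 b hb hC, sum_const, nsmul_eq_mul]
    linarith [hT4.nonneg]

end Pool.Agent.H.MP_8a4838_co
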